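import Mathlib

/-!
The low-pass filter.
-/

set_option autoImplicit false

open Set Filter Topology
open scoped ContDiff

namespace Pool.Agent.V11282.WV

noncomputable section

/-- the bump -/
def be (x : ℝ) : ℝ := expNegInvGlue (x - 1 / 3) * expNegInvGlue (3 / 8 - x)

/-- the angle function -/
def th (x : ℝ) : ℝ := Real.pi / 2 * Real.smoothTransition (6 * x - 1) + be x - be (1 / 2 - x)

lemma eg_lt_one (x : ℝ) : expNegInvGlue x < 1 := by
  unfold expNegInvGlue
  split_ifs with h
  · norm_num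
  · push Not at h
    rw [Real.exp_lt_one_iff, neg_lt_zero]
    exact inv_pos.mpr h

lemma be_nonneg (x : ℝ) : 0 ≤ be x :=
  mul_nonneg (expNegInvGlue.nonneg _) (expNegInvGlue.nonneg _)

lemma be_lt_one (x : ℝ) : be x < 1 := by
  have h1 := eg_lt_one (x - 1 / 3)
  have h2 := eg_lt_one (3 / 8 - x)
  have h3 := expNegInvGlue.nonneg (x - 1 / 3)
  have h4 := expNegInvGlue.nonneg (3 / 8 - x)
  unfold be
  nlinarith

lemma be_left {x : ℝ} (h : x ≤ 1 / 3) : be x = 0 := by
  unfold be
  rw [expNegInvGlue.zero_of_nonpos (by linarith), zero_mul]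

lemma be_right {x : ℝ} (h : 3 / 8 ≤ x) : be x = 0 := by
  unfold be
  rw [expNegInvGlue.zero_of_nonpos (x := 3 / 8 - x) (by linarith), mul_zero]

lemma be_pos {x : ℝ} (h1 : 1 / 3 < x) (h2 : x < 3 / 8) : 0 < be x :=
  mul_pos (expNegInvGlue.pos_of_pos (by linarith)) (expNegInvGlue.pos_of_pos (by linarith))

lemma be_smooth : ContDiff ℝ ∞ be := by
  unfold be
  exact (expNegInvGlue.contDiff.comp (contDiff_id.sub contDiff_const)).mul
    (expNegInvGlue.contDiff.comp (contDiff_const.sub contDiff_id))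

lemma th_smooth : ContDiff ℝ ∞ th := by
  unfold th
  refine ContDiff.sub (ContDiff.add ?_ be_smooth) (be_smooth.comp (contDiff_const.sub contDiff_id))
  exact contDiff_const.mul (Real.smoothTransition.contDiff.comp
    ((contDiff_const.mul contDiff_id).sub contDiff_const))

lemma th_lo {x : ℝ} (h : x ≤ 1 / 8) : th x = 0 := by
  unfold th
  rw [Real.smoothTransition.zero_of_nonpos (by linarith), be_left (by linarith),
    be_right (by linarith)]
  ring

lemma th_hi {x : ℝ} (h : 3 / 8 ≤ x) : th x = Real.pi / 2 := by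
  unfold th
  rw [Real.smoothTransition.one_of_one_le (by linarith), be_right h, be_left (by linarith)]
  ring

lemma st_sym (x : ℝ) : Real.smoothTransition (1 - x) = 1 - Real.smoothTransition x := by
  unfold Real.smoothTransition
  have h := Real.smoothTransition.pos_denom x
  have e : 1 - (1 - x) = x := by ring
  rw [e]
  have h2 : expNegInvGlue (1 - x) + expNegInvGlue x ≠ 0 := by linarith
  have h3 : expNegInvGlue x + expNegInvGlue (1 - x) ≠ 0 := h.ne'
  field_simp
  ring

lemma th_sym (x : ℝ) : th (1 / 2 - x) = Real.pi / 2 - th x := by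
  unfold th
  have e : 6 * (1 / 2 - x) - 1 = 1 - (6 * x - 1) := by ring
  rw [e, st_sym]
  have e2 : 1 / 2 - (1 / 2 - x) = x := by ring
  rw [e2]
  ring

/-- the basic bump of the filter -/
def mu (x : ℝ) : ℝ := Real.cos (th x) * Real.cos (th (-x))

lemma mu_smooth : ContDiff ℝ ∞ mu := by
  unfold mu
  exact (Real.contDiff_cos.comp th_smooth).mul
    (Real.contDiff_cos.comp (th_smooth.comp contDiff_neg))

lemma mu_abs (x : ℝ) : mu x = Real.cos (th |x|) := by
  unfold mu
  rcases le_total 0 x with h | h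
  · rw [abs_of_nonneg h, th_lo (x := -x) (by linarith), Real.cos_zero, mul_one]
  · rw [abs_of_nonpos h, th_lo (x := x) (by linarith), Real.cos_zero, one_mul]

lemma mu_zero {x : ℝ} (h : 3 / 8 ≤ |x|) : mu x = 0 := by
  rw [mu_abs, th_hi h, Real.cos_pi_div_two]

lemma mu_even (x : ℝ) : mu (-x) = mu x := by rw [mu_abs, mu_abs, abs_neg]

/-- the low-pass filter -/
def m0 (x : ℝ) : ℝ := mu (x - round x)

lemma m0_eq (x : ℝ) (k : ℤ) (h : |x - k| ≤ 5 / 8) : m0 x = mu (x - k) := by
  unfold m0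
  by_cases hk : round x = k
  · rw [hk]
  · have h1 : |x - round x| ≤ 1 / 2 := abs_sub_round x
    have h2 : (1:ℝ) ≤ |((round x : ℤ) : ℝ) - k| := by
      have : (1:ℤ) ≤ |round x - k| := Int.one_le_abs (sub_ne_zero.mpr hk)
      exact_mod_cast this
    have h3 : |((round x : ℤ) : ℝ) - k| ≤ |x - round x| + |x - k| := by
      have : ((round x : ℤ) : ℝ) - k = -(x - round x) + (x - k) := by ring
      rw [this]
      exact (abs_add_le _ _).trans (by rw [abs_neg])
    rw [mu_zero (x := x - round x) (by linarith), mu_zero (x := x - k) (by linarith)]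

lemma m0_smooth : ContDiff ℝ ∞ m0 := by
  rw [contDiff_iff_contDiffAt]
  intro x
  set k : ℤ := round x with hk
  have h1 : |x - k| ≤ 1 / 2 := abs_sub_round x
  have h2 : ∀ᶠ y : ℝ in 𝓝 x, |y - k| < 5 / 8 := by
    have hc : Continuous fun y : ℝ => |y - k| := by fun_prop
    exact hc.continuousAt.eventually_lt continuousAt_const (by linarith)
  have h3 : m0 =ᶠ[𝓝 x] fun y => mu (y - k) := by
    filter_upwards [h2] with y hy
    exact m0_eq y k hy.le
  refine ContDiffAt.congr_of_eventuallyEq ?_ h3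
  exact (mu_smooth.comp (contDiff_id.sub contDiff_const)).contDiffAt

lemma m0_per (x : ℝ) (k : ℤ) : m0 (x + k) = m0 x := by
  have h1 : |x - round x| ≤ 1 / 2 := abs_sub_round x
  rw [m0_eq (x + k) (round x + k) (by push_cast; rw [add_sub_add_right_eq_sub]; linarith)]
  push_cast
  rw [add_sub_add_right_eq_sub]
  rfl

lemma m0_per1 (x : ℝ) : m0 (x + 1) = m0 x := by
  have := m0_per x 1
  simpa using this

lemma m0_even (x : ℝ) : m0 (-x) = m0 x := by
  have h1 : |x - round x| ≤ 1 / 2 := abs_sub_round x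
  have e : -x - ((-round x : ℤ) : ℝ) = -(x - round x) := by push_cast; ring
  rw [m0_eq (-x) (-round x) (by rw [e, abs_neg]; linarith), e, mu_even]
  rfl

lemma m0_abs {x : ℝ} (h : |x| ≤ 5 / 8) : m0 x = Real.cos (th |x|) := by
  have := m0_eq x 0 (by simpa using h)
  rw [this, mu_abs]
  simp

lemma m0_one {x : ℝ} (h : |x| ≤ 1 / 8) : m0 x = 1 := by
  rw [m0_abs (by linarith), th_lo h, Real.cos_zero]

lemma m0_zero {x : ℝ} (h1 : 3 / 8 ≤ x) (h2 : x ≤ 5 / 8) : m0 x = 0 := by
  rw [m0_abs (by rw [abs_of_nonneg (by linarith)]; exact h2),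
    th_hi (by rw [abs_of_nonneg (by linarith)]; exact h1), Real.cos_pi_div_two]

lemma m0_qmf (x : ℝ) : m0 x ^ 2 + m0 (x + 1 / 2) ^ 2 = 1 := by
  set k := round x with hk
  set r := x - k with hr
  have h1 : |r| ≤ 1 / 2 := abs_sub_round x
  have h1' := abs_le.mp h1
  have e1 : m0 x = Real.cos (th |r|) := by
    rw [m0_eq x k (by linarith), mu_abs]
  have e2 : m0 (x + 1 / 2) = Real.cos (th (1 / 2 - |r|)) := by
    rcases le_or_gt r 0 with h | h
    · have e : x + 1 / 2 - (k : ℝ) = 1 / 2 - |r| := by rw [abs_of_nonpos h]; linarith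
      rw [m0_eq (x + 1 / 2) k (by
        rw [e, abs_of_nonneg (by linarith)]
        have := abs_nonneg r
        linarith), mu_abs, e, abs_of_nonneg (by linarith)]
    · have e : x + 1 / 2 - ((k + 1 : ℤ) : ℝ) = -(1 / 2 - |r|) := by
        rw [abs_of_pos h]; push_cast; linarith
      rw [m0_eq (x + 1 / 2) (k + 1) (by
        rw [e, abs_neg, abs_of_nonneg (by linarith)]
        have := abs_nonneg r
        linarith), mu_abs, e, abs_neg, abs_of_nonneg (by linarith)]
  rw [e1, e2, th_sym, Real.cos_pi_div_two_sub]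
  have := Real.sin_sq_add_cos_sq (th |r|)
  linarith

lemma m0_le_one (x : ℝ) : |m0 x| ≤ 1 := by
  have := m0_qmf x
  rw [abs_le]
  constructor <;> nlinarith [sq_nonneg (m0 (x + 1 / 2)), sq_nonneg (m0 x)]

lemma cos_ne {y : ℝ} (h0 : 0 ≤ y) (h1 : y < 3 / 8) (h2 : y ≠ 1 / 3) : Real.cos (th y) ≠ 0 := by
  have hpi := Real.pi_gt_three
  have hpi4 := Real.pi_le_four
  rcases lt_or_gt_of_ne h2 with h | h
  · apply ne_of_gt
    apply Real.cos_pos_of_mem_Ioo
    have h3 : Real.smoothTransition (6 * y - 1) < 1 :=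
      Real.smoothTransition.lt_one_of_lt_one (by linarith)
    have h4 := Real.smoothTransition.nonneg (6 * y - 1)
    have h5 := be_nonneg (1 / 2 - y)
    have h6 := be_lt_one (1 / 2 - y)
    unfold th
    rw [be_left h.le]
    constructor
    · nlinarith
    · nlinarith
  · apply ne_of_lt
    have h3 := be_pos h h1
    have h4 := be_lt_one y
    unfold th
    rw [Real.smoothTransition.one_of_one_le (by linarith), be_left (x := 1 / 2 - y) (by linarith)]
    apply Real.cos_neg_of_pi_div_two_lt_of_lt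
    · linarith
    · linarith

lemma m0_ne {x : ℝ} (h1 : |x| < 3 / 8) (h2 : |x| ≠ 1 / 3) : m0 x ≠ 0 := by
  rw [m0_abs (by linarith)]
  exact cos_ne (abs_nonneg _) h1 h2

lemma iter_eq_of_open {f g : ℝ → ℝ} (n : ℕ) {a b : ℝ} (h : ∀ x ∈ Ioo a b, f x = g x) {x : ℝ}
    (hx : x ∈ Ioo a b) : iteratedDeriv n f x = iteratedDeriv n g x := by
  apply Filter.EventuallyEq.iteratedDeriv_eq
  filter_upwards [isOpen_Ioo.mem_nhds hx] with y hy
  exact h y hy

lemma iter_eq_of_closure {f g : ℝ → ℝ} (hf : ContDiff ℝ ∞ f) (hg : ContDiff ℝ ∞ g) (n : ℕ)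
    {a b : ℝ} (hab : a < b) (h : ∀ x ∈ Ioo a b, f x = g x) {x : ℝ} (hx : x ∈ Icc a b) :
    iteratedDeriv n f x = iteratedDeriv n g x := by
  have hc1 : Continuous (iteratedDeriv n f) := hf.continuous_iteratedDeriv n (by exact_mod_cast le_top)
  have hc2 : Continuous (iteratedDeriv n g) := hg.continuous_iteratedDeriv n (by exact_mod_cast le_top)
  have hcl : IsClosed {y | iteratedDeriv n f y = iteratedDeriv n g y} := isClosed_eq hc1 hc2
  have hsub : Ioo a b ⊆ {y | iteratedDeriv n f y = iteratedDeriv n g y} :=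
    fun y hy => iter_eq_of_open n h hy
  have := closure_minimal hsub hcl
  rw [closure_Ioo hab.ne] at this
  exact this hx

lemma m0_flat (n : ℕ) : iteratedDeriv n m0 (1 / 3) = 0 := by
  have hs : ContDiff ℝ ∞ (fun x => -Real.sin (be x)) := (Real.contDiff_sin.comp be_smooth).neg
  have e1 : iteratedDeriv n m0 (1 / 3) = iteratedDeriv n (fun x => -Real.sin (be x)) (1 / 3) := by
    apply iter_eq_of_closure m0_smooth hs n (a := 1 / 3) (b := 1 / 2) (by norm_num)
    · intro x hx
      have hx0 : 0 < x := by linarith [hx.1]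
      rw [m0_abs (by rw [abs_of_pos hx0]; linarith [hx.2]), abs_of_pos hx0]
      unfold th
      rw [Real.smoothTransition.one_of_one_le (by linarith [hx.1]),
        be_left (x := 1 / 2 - x) (by linarith [hx.1]), mul_one, sub_zero, add_comm,
        Real.cos_add_pi_div_two]
    · constructor <;> norm_num
  have e2 : iteratedDeriv n (fun x => -Real.sin (be x)) (1 / 3)
      = iteratedDeriv n (fun _ : ℝ => (0:ℝ)) (1 / 3) := by
    apply iter_eq_of_closure hs contDiff_const n (a := 0) (b := 1 / 3) (by norm_num)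
    · intro x hx
      rw [be_left hx.2.le, Real.sin_zero, neg_zero]
    · constructor <;> norm_num
  rw [e1, e2]
  simp

lemma m0_iter_zero (n : ℕ) {x : ℝ} (h1 : 3 / 8 < x) (h2 : x < 5 / 8) :
    iteratedDeriv n m0 x = 0 := by
  have e : iteratedDeriv n m0 x = iteratedDeriv n (fun _ : ℝ => (0:ℝ)) x := by
    apply iter_eq_of_open n (a := 3 / 8) (b := 5 / 8) _ ⟨h1, h2⟩
    intro y hy
    exact m0_zero hy.1.le hy.2.le
  rw [e]
  simp

lemma m0_iter_per (n : ℕ) (x : ℝ) (k : ℤ) :
    iteratedDeriv n m0 (x + k) = iteratedDeriv n m0 x := by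
  have h : (fun y => m0 (y + k)) = m0 := by
    funext y
    exact m0_per y k
  have h2 := iteratedDeriv_comp_add_const n m0 (k : ℝ)
  rw [h] at h2
  exact (congrFun h2 x).symm

lemma m0_iter_bdd (n : ℕ) : ∃ C : ℝ, 0 ≤ C ∧ ∀ x, |iteratedDeriv n m0 x| ≤ C := by
  have hc : Continuous (iteratedDeriv n m0) :=
    m0_smooth.continuous_iteratedDeriv n (by exact_mod_cast le_top)
  obtain ⟨C, hC⟩ := (isCompact_Icc (a := (-(1/2):ℝ)) (b := 1 / 2)).exists_bound_of_continuousOn
    hc.continuousOn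
  have hC0 : 0 ≤ C := (norm_nonneg _).trans (hC 0 (by constructor <;> norm_num))
  refine ⟨C, hC0, fun x => ?_⟩
  have h1 := abs_le.mp (abs_sub_round x)
  have h2 := hC (x - round x) ⟨h1.1, h1.2⟩
  have h3 := m0_iter_per n (x - round x) (round x)
  rw [sub_add_cancel] at h3
  rw [h3]
  exact h2

end

end Pool.Agent.V11282.WV
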