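import Mathlib
import Pool.Agent.V11282.WV.M0

/-!
The scaling function: smoothness and rapid decay.
-/

set_option autoImplicit false

open Set Filter Topology Finset
open scoped ContDiff

namespace Pool.Agent.V11282.WV

noncomputable section

lemma flat_bound (f : ℝ → ℝ) (hf : ContDiff ℝ ∞ f) (x0 a b : ℝ)
    (h : ∀ n, iteratedDeriv n f x0 = 0) (h0 : x0 ∈ Icc a b) :
    ∀ N n : ℕ, ∃ C : ℝ, 0 ≤ C ∧ ∀ x ∈ Icc a b, |iteratedDeriv n f x| ≤ C * |x - x0| ^ N := by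
  intro N
  induction N with
  | zero =>
    intro n
    have hc : Continuous (iteratedDeriv n f) :=
      hf.continuous_iteratedDeriv n (by exact_mod_cast le_top)
    obtain ⟨C, hC⟩ := (isCompact_Icc (a := a) (b := b)).exists_bound_of_continuousOn
      hc.continuousOn
    refine ⟨C, (norm_nonneg _).trans (hC x0 h0), fun x hx => ?_⟩
    rw [pow_zero, mul_one]
    exact hC x hx
  | succ N ih =>
    intro n
    obtain ⟨C, hC0, hC⟩ := ih (n + 1)
    refine ⟨C, hC0, fun x hx => ?_⟩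
    have hd : Differentiable ℝ (iteratedDeriv n f) :=
      hf.differentiable_iteratedDeriv n (by exact_mod_cast ENat.coe_lt_top n)
    have key := Convex.norm_image_sub_le_of_norm_deriv_le (f := iteratedDeriv n f)
      (C := C * |x - x0| ^ N) (s := uIcc x0 x) (x := x0) (y := x) (fun y _ => hd y)
      (by
        intro y hy
        rw [← iteratedDeriv_succ, Real.norm_eq_abs]
        have hy2 : y ∈ Icc a b := (uIcc_subset_Icc h0 hx) hy
        refine (hC y hy2).trans ?_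
        have h3 : |y - x0| ≤ |x - x0| := abs_sub_left_of_mem_uIcc hy
        gcongr) (convex_uIcc x0 x) left_mem_uIcc right_mem_uIcc
    rw [h n, sub_zero, Real.norm_eq_abs, Real.norm_eq_abs] at key
    rw [pow_succ, ← mul_assoc]
    exact key

/-- partial products -/
def PP (J : ℕ) (ξ : ℝ) : ℝ := ∏ j ∈ Finset.range J, m0 (ξ / 2 ^ (j + 1))

lemma PP_stable (J K : ℕ) (ξ : ℝ) (h : |ξ| ≤ 2 ^ J / 4) (hK : J ≤ K) : PP K ξ = PP J ξ := by
  induction K, hK using Nat.le_induction with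
  | base => rfl
  | succ K hK ih =>
    have h1 : PP (K + 1) ξ = PP K ξ * m0 (ξ / 2 ^ (K + 1)) := Finset.prod_range_succ _ _
    rw [h1, ih, m0_one, mul_one]
    rw [abs_div, abs_of_pos (by positivity : (0:ℝ) < 2 ^ (K + 1)), div_le_iff₀ (by positivity)]
    have h2 : (2:ℝ) ^ J ≤ 2 ^ K := pow_le_pow_right₀ (by norm_num) hK
    rw [pow_succ]
    linarith

lemma le_two_pow (x : ℝ) : |x| ≤ 2 ^ (⌈|x|⌉₊ + 3) / 4 := by
  have h1 := Nat.le_ceil |x|
  have h2 : ((⌈|x|⌉₊ : ℕ) : ℝ) ≤ 2 ^ ⌈|x|⌉₊ := by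
    exact_mod_cast (Nat.lt_two_pow_self (n := ⌈|x|⌉₊)).le
  rw [pow_add]
  have h3 : (0:ℝ) < 2 ^ ⌈|x|⌉₊ := by positivity
  linarith

/-- the scaling function -/
def Phi (ξ : ℝ) : ℝ := PP (⌈|ξ|⌉₊ + 3) ξ

lemma Phi_eq (J : ℕ) (ξ : ℝ) (h : |ξ| ≤ 2 ^ J / 4) : Phi ξ = PP J ξ := by
  unfold Phi
  rw [← PP_stable J (max J (⌈|ξ|⌉₊ + 3)) ξ h (le_max_left _ _),
    ← PP_stable (⌈|ξ|⌉₊ + 3) (max J (⌈|ξ|⌉₊ + 3)) ξ (le_two_pow ξ) (le_max_right _ _)]

lemma PP_smooth (J : ℕ) : ContDiff ℝ ∞ (PP J) := by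
  unfold PP
  apply contDiff_prod
  intro j _
  exact m0_smooth.comp (contDiff_id.div_const _)

lemma Phi_smooth : ContDiff ℝ ∞ Phi := by
  rw [contDiff_iff_contDiffAt]
  intro x
  set J := ⌈|x|⌉₊ + 4 with hJ
  have h1 : |x| < 2 ^ J / 4 := by
    have h2 := le_two_pow x
    have h3 : (2:ℝ) ^ J = 2 * 2 ^ (⌈|x|⌉₊ + 3) := by rw [hJ, pow_succ 2 (⌈|x|⌉₊ + 3)]; ring
    have h4 : (0:ℝ) < 2 ^ (⌈|x|⌉₊ + 3) := by positivity
    rw [h3]
    linarith
  have h2 : ∀ᶠ y : ℝ in 𝓝 x, |y| < 2 ^ J / 4 :=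
    continuous_abs.continuousAt.eventually_lt continuousAt_const h1
  have h3 : Phi =ᶠ[𝓝 x] PP J := by
    filter_upwards [h2] with y hy
    exact Phi_eq J y hy.le
  exact (PP_smooth J).contDiffAt.congr_of_eventuallyEq h3

lemma Phi_two (ξ : ℝ) : Phi (2 * ξ) = m0 ξ * Phi ξ := by
  have h1 := le_two_pow ξ
  set J := ⌈|ξ|⌉₊ + 3 with hJ
  have h2 : |2 * ξ| ≤ 2 ^ (J + 1) / 4 := by
    rw [abs_mul, abs_of_pos (by norm_num : (0:ℝ) < 2), pow_succ]
    linarith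
  rw [Phi_eq (J + 1) _ h2, Phi_eq J ξ h1]
  unfold PP
  rw [Finset.prod_range_succ', mul_comm]
  congr 1
  · congr 1
    rw [zero_add, pow_one]
    ring
  · apply Finset.prod_congr rfl
    intro j _
    congr 1
    rw [pow_succ 2 (j + 1)]
    field_simp

lemma Phi_half (ξ : ℝ) : Phi ξ = m0 (1 / 2 * ξ) * Phi (1 / 2 * ξ) := by
  rw [← Phi_two]
  congr 1
  ring

lemma Phi_even (ξ : ℝ) : Phi (-ξ) = Phi ξ := by
  unfold Phi PP
  rw [abs_neg]
  apply Finset.prod_congr rfl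
  intro j _
  rw [neg_div, m0_even]

lemma Phi_one {ξ : ℝ} (h : |ξ| ≤ 1 / 4) : Phi ξ = 1 := by
  rw [Phi_eq 0 ξ (by simpa using h)]
  simp [PP]

lemma Phi_abs (ξ : ℝ) : |Phi ξ| ≤ 1 := by
  unfold Phi PP
  rw [Finset.abs_prod]
  exact Finset.prod_le_one (fun _ _ => abs_nonneg _) (fun _ _ => m0_le_one _)

lemma iter_scale (f : ℝ → ℝ) (hf : ContDiff ℝ ∞ f) (i : ℕ) (x : ℝ) :
    |iteratedDeriv i (fun y => f (1 / 2 * y)) x| ≤ |iteratedDeriv i f (1 / 2 * x)| := by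
  rw [iteratedDeriv_comp_const_mul (hf.of_le (by exact_mod_cast le_top)) (1 / 2)]
  rw [abs_mul, abs_of_pos (by positivity : (0:ℝ) < (1 / 2) ^ i)]
  have h1 : ((1:ℝ) / 2) ^ i ≤ 1 := pow_le_one₀ (by norm_num) (by norm_num)
  have h2 := abs_nonneg (iteratedDeriv i f (1 / 2 * x))
  nlinarith

/-- recursion for the derivatives -/
lemma Phi_rec (k : ℕ) (ξ : ℝ) : |iteratedDeriv k Phi ξ| ≤
    ∑ i ∈ Finset.range (k + 1), (k.choose i : ℝ) * |iteratedDeriv i m0 (1 / 2 * ξ)|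
      * |iteratedDeriv (k - i) Phi (1 / 2 * ξ)| := by
  have e : Phi = fun y => (fun z => m0 (1 / 2 * z)) y * (fun z => Phi (1 / 2 * z)) y := by
    funext y
    exact Phi_half y
  have hm : ContDiff ℝ ∞ (fun z => m0 (1 / 2 * z)) :=
    m0_smooth.comp (contDiff_const.mul contDiff_id)
  have hp : ContDiff ℝ ∞ (fun z => Phi (1 / 2 * z)) :=
    Phi_smooth.comp (contDiff_const.mul contDiff_id)
  have h := norm_iteratedFDeriv_mul_le (N := ∞) hm hp ξ (n := k) (by exact_mod_cast le_top)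
  rw [← e] at h
  simp only [norm_iteratedFDeriv_eq_norm_iteratedDeriv, Real.norm_eq_abs] at h
  refine h.trans ?_
  apply Finset.sum_le_sum
  intro i _
  have h1 := iter_scale m0 m0_smooth i ξ
  have h2 := iter_scale Phi Phi_smooth (k - i) ξ
  gcongr

lemma Phi_flat (n : ℕ) : iteratedDeriv n Phi (2 / 3) = 0 := by
  have h := Phi_rec n (2 / 3)
  have e : (1 / 2 : ℝ) * (2 / 3) = 1 / 3 := by norm_num
  rw [e] at h
  have h2 : ∑ i ∈ Finset.range (n + 1), (n.choose i : ℝ) * |iteratedDeriv i m0 (1 / 3)|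
      * |iteratedDeriv (n - i) Phi (1 / 3)| = 0 := by
    apply Finset.sum_eq_zero
    intro i _
    rw [m0_flat, abs_zero, mul_zero, zero_mul]
  rw [h2] at h
  exact abs_nonpos_iff.mp h

lemma rec_zero_left (k : ℕ) (ξ : ℝ) (h : ∀ i, iteratedDeriv i m0 (1 / 2 * ξ) = 0) :
    iteratedDeriv k Phi ξ = 0 := by
  have h1 := Phi_rec k ξ
  rw [Finset.sum_eq_zero (fun i _ => by rw [h i, abs_zero, mul_zero, zero_mul])] at h1
  exact abs_nonpos_iff.mp h1

lemma rec_zero_right (k : ℕ) (ξ : ℝ) (h : ∀ i, iteratedDeriv i Phi (1 / 2 * ξ) = 0) :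
    iteratedDeriv k Phi ξ = 0 := by
  have h1 := Phi_rec k ξ
  rw [Finset.sum_eq_zero (fun i _ => by rw [h (k - i), abs_zero, mul_zero])] at h1
  exact abs_nonpos_iff.mp h1

lemma four_third (m : ℕ) : ∃ K : ℤ, (4:ℝ) ^ m * (2 / 3) = 2 / 3 + K := by
  induction m with
  | zero => exact ⟨0, by simp⟩
  | succ m ih =>
    obtain ⟨K, hK⟩ := ih
    refine ⟨2 + 4 * K, ?_⟩
    rw [pow_succ]
    push_cast
    linarith

lemma m0_iter_shift_zero (i : ℕ) (y : ℝ) (K : ℤ) (h1 : 3 / 8 < y - K) (h2 : y - K < 5 / 8) :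
    iteratedDeriv i m0 y = 0 := by
  have h := m0_iter_per i (y - K) K
  rw [sub_add_cancel] at h
  rw [h]
  exact m0_iter_zero i h1 h2

lemma van_step_EO (m : ℕ) (hE : ∀ ξ : ℝ, 4 ^ m / 2 ≤ ξ → ξ ≤ 4 ^ m →
    (4 ^ m * (2 / 3) + 1 / 12 < ξ ∨ ξ < 4 ^ m * (2 / 3) - 1 / 6) →
    ∀ k, iteratedDeriv k Phi ξ = 0) :
    ∀ ξ : ℝ, 4 ^ m ≤ ξ → ξ ≤ 2 * 4 ^ m →
    (4 ^ m * (4 / 3) + 1 / 6 < ξ ∨ ξ < 4 ^ m * (4 / 3) - 1 / 12) →
    ∀ k, iteratedDeriv k Phi ξ = 0 := by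
  intro ξ h1 h2 h3 k
  obtain ⟨K, hK⟩ := four_third m
  rcases h3 with h3 | h3
  · apply rec_zero_right
    exact hE _ (by linarith) (by linarith) (Or.inl (by linarith))
  · rcases lt_or_ge (1 / 2 * ξ) (4 ^ m * (2 / 3) - 1 / 6) with h4 | h4
    · apply rec_zero_right
      exact hE _ (by linarith) (by linarith) (Or.inr h4)
    · apply rec_zero_left
      intro i
      apply m0_iter_shift_zero i _ K
      · linarith
      · linarith

lemma van_step_OE (m : ℕ) (hO : ∀ ξ : ℝ, 4 ^ m ≤ ξ → ξ ≤ 2 * 4 ^ m →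
    (4 ^ m * (4 / 3) + 1 / 6 < ξ ∨ ξ < 4 ^ m * (4 / 3) - 1 / 12) →
    ∀ k, iteratedDeriv k Phi ξ = 0) :
    ∀ ξ : ℝ, 4 ^ (m + 1) / 2 ≤ ξ → ξ ≤ 4 ^ (m + 1) →
    (4 ^ (m + 1) * (2 / 3) + 1 / 12 < ξ ∨ ξ < 4 ^ (m + 1) * (2 / 3) - 1 / 6) →
    ∀ k, iteratedDeriv k Phi ξ = 0 := by
  intro ξ h1 h2 h3 k
  rw [pow_succ] at h1 h2 h3
  obtain ⟨K, hK⟩ := four_third m
  rcases h3 with h3 | h3
  · rcases lt_or_ge (4 ^ m * (4 / 3) + 1 / 6) (1 / 2 * ξ) with h4 | h4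
    · apply rec_zero_right
      exact hO _ (by linarith) (by linarith) (Or.inl h4)
    · apply rec_zero_left
      intro i
      apply m0_iter_shift_zero i _ (1 + 2 * K)
      · push_cast
        linarith
      · push_cast
        linarith
  · apply rec_zero_right
    exact hO _ (by linarith) (by linarith) (Or.inr (by linarith))

lemma van_E (m : ℕ) : ∀ ξ : ℝ, 4 ^ m / 2 ≤ ξ → ξ ≤ 4 ^ m →
    (4 ^ m * (2 / 3) + 1 / 12 < ξ ∨ ξ < 4 ^ m * (2 / 3) - 1 / 6) →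
    ∀ k, iteratedDeriv k Phi ξ = 0 := by
  induction m with
  | zero =>
    intro ξ h1 h2 h3 k
    rw [pow_zero] at h1 h2 h3
    rcases h3 with h3 | h3
    · apply rec_zero_left
      intro i
      apply m0_iter_zero i
      · linarith
      · linarith
    · exfalso
      linarith
  | succ m ih => exact van_step_OE m (van_step_EO m ih)

lemma van (i : ℕ) (ξ : ℝ) (h1 : 2 ^ i / 2 ≤ ξ) (h2 : ξ ≤ 2 ^ i)
    (h3 : 1 / 6 < |ξ - 2 ^ i * (2 / 3)|) (k : ℕ) : iteratedDeriv k Phi ξ = 0 := by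
  rcases Nat.even_or_odd' i with ⟨m, hm | hm⟩
  · have e : (2:ℝ) ^ i = 4 ^ m := by rw [hm, pow_mul]; norm_num
    rw [e] at h1 h2 h3
    apply van_E m ξ h1 h2
    rcases le_total 0 (ξ - 4 ^ m * (2 / 3)) with h | h
    · rw [abs_of_nonneg h] at h3
      left; linarith
    · rw [abs_of_nonpos h] at h3
      right; linarith
  · have e : (2:ℝ) ^ i = 2 * 4 ^ m := by rw [hm, pow_succ, pow_mul]; norm_num; ring
    rw [e] at h1 h2 h3
    apply van_step_EO m (van_E m) ξ (by linarith) h2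
    rcases le_total 0 (ξ - 2 * 4 ^ m * (2 / 3)) with h | h
    · rw [abs_of_nonneg h] at h3
      left; linarith
    · rw [abs_of_nonpos h] at h3
      right; linarith

lemma unif_bound (F : ℕ → ℝ → ℝ) (S : Set ℝ) (g : ℝ → ℝ) (hg : ∀ x, 0 ≤ g x)
    (h : ∀ k, ∃ C : ℝ, 0 ≤ C ∧ ∀ x ∈ S, |F k x| ≤ C * g x) (n : ℕ) :
    ∃ C : ℝ, 0 ≤ C ∧ ∀ k ≤ n, ∀ x ∈ S, |F k x| ≤ C * g x := by
  choose C hC0 hC using h
  refine ⟨∑ k ∈ Finset.range (n + 1), C k, Finset.sum_nonneg fun k _ => hC0 k, ?_⟩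
  intro k hk x hx
  refine (hC k x hx).trans ?_
  have : C k ≤ ∑ k ∈ Finset.range (n + 1), C k :=
    Finset.single_le_sum (fun k _ => hC0 k) (Finset.mem_range.mpr (by omega))
  exact mul_le_mul_of_nonneg_right this (hg x)

lemma Phi_shell (n N : ℕ) (M : ℝ) (hM0 : 0 ≤ M) (hM : ∀ k ≤ n, ∀ x, |iteratedDeriv k m0 x| ≤ M) :
    ∃ C : ℝ, 0 ≤ C ∧ ∀ i : ℕ, ∀ ξ : ℝ, 2 ^ i / 2 ≤ ξ → ξ ≤ 2 ^ i → ∀ k ≤ n,
      |iteratedDeriv k Phi ξ| ≤ C * (2 ^ n * M / 2 ^ N) ^ i * |ξ - 2 ^ i * (2 / 3)| ^ N := by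
  obtain ⟨C, hC0, hC⟩ := unif_bound (fun k => iteratedDeriv k Phi) (Icc (1 / 2) 1)
    (fun x => |x - 2 / 3| ^ N) (fun x => by positivity)
    (flat_bound Phi Phi_smooth (2 / 3) (1 / 2) 1 Phi_flat (by constructor <;> norm_num) N) n
  refine ⟨C, hC0, ?_⟩
  intro i
  induction i with
  | zero =>
    intro ξ h1 h2 k hk
    simp only [pow_zero] at h1 h2 ⊢
    have := hC k hk ξ ⟨h1, h2⟩
    simpa using this
  | succ i ih =>
    intro ξ h1 h2 k hk
    rw [pow_succ] at h1 h2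
    set L : ℝ := 2 ^ n * M / 2 ^ N with hL
    have hL0 : 0 ≤ L := by positivity
    have hy1 : 2 ^ i / 2 ≤ 1 / 2 * ξ := by linarith
    have hy2 : 1 / 2 * ξ ≤ 2 ^ i := by linarith
    set X := C * L ^ i * |1 / 2 * ξ - 2 ^ i * (2 / 3)| ^ N with hX
    have hX0 : 0 ≤ X := by positivity
    calc |iteratedDeriv k Phi ξ| ≤ ∑ l ∈ Finset.range (k + 1), (k.choose l : ℝ)
          * |iteratedDeriv l m0 (1 / 2 * ξ)| * |iteratedDeriv (k - l) Phi (1 / 2 * ξ)| :=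
          Phi_rec k ξ
      _ ≤ ∑ l ∈ Finset.range (k + 1), (k.choose l : ℝ) * M * X := by
          apply Finset.sum_le_sum
          intro l hl
          have hl2 := Finset.mem_range.mp hl
          have h3 := hM l (by omega) (1 / 2 * ξ)
          have h4 := ih (1 / 2 * ξ) hy1 hy2 (k - l) (by omega)
          gcongr
      _ = 2 ^ k * M * X := by
          rw [← Finset.sum_mul, ← Finset.sum_mul]
          congr 2
          have := Nat.sum_range_choose k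
          exact_mod_cast this
      _ ≤ 2 ^ n * M * X := by
          have : (2:ℝ) ^ k ≤ 2 ^ n := pow_le_pow_right₀ (by norm_num) hk
          gcongr
      _ = C * L ^ (i + 1) * |ξ - 2 ^ (i + 1) * (2 / 3)| ^ N := by
          have e1 : |ξ - 2 ^ (i + 1) * (2 / 3)| = 2 * |1 / 2 * ξ - 2 ^ i * (2 / 3)| := by
            have : ξ - 2 ^ (i + 1) * (2 / 3) = 2 * (1 / 2 * ξ - 2 ^ i * (2 / 3)) := by
              rw [pow_succ]; ring
            rw [this, abs_mul, abs_of_pos (by norm_num : (0:ℝ) < 2)]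
          rw [e1, hX, mul_pow 2, pow_succ L i]
          have e2 : L * 2 ^ N = 2 ^ n * M := by
            rw [hL]
            field_simp
          rw [← e2]
          ring

lemma Phi_iter_even (n : ℕ) (ξ : ℝ) : |iteratedDeriv n Phi (-ξ)| = |iteratedDeriv n Phi ξ| := by
  have h := iteratedDeriv_comp_neg n Phi ξ
  have e : (fun x => Phi (-x)) = Phi := by
    funext x
    exact Phi_even x
  rw [e] at h
  rw [h, smul_eq_mul, abs_mul, abs_pow, abs_neg, abs_one, one_pow, one_mul]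

/-- rapid decay -/
theorem Phi_decay (p n : ℕ) : ∃ C : ℝ, ∀ ξ : ℝ, |ξ| ^ p * |iteratedDeriv n Phi ξ| ≤ C := by
  obtain ⟨M, hM0, hM⟩ := unif_bound (fun k => iteratedDeriv k m0) univ (fun _ => 1)
    (fun _ => by norm_num) (fun k => by
      obtain ⟨C, hC0, hC⟩ := m0_iter_bdd k
      exact ⟨C, hC0, fun x _ => by rw [mul_one]; exact hC x⟩) n
  obtain ⟨N, hN⟩ := pow_unbounded_of_one_lt (2 ^ n * M * 2 ^ p) (by norm_num : (1:ℝ) < 2)
  obtain ⟨C, hC0, hC⟩ := Phi_shell n N M hM0 (fun k hk x => by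
    have := hM k hk x (mem_univ x)
    rwa [mul_one] at this)
  have hc : Continuous (fun ξ => |ξ| ^ p * |iteratedDeriv n Phi ξ|) :=
    (continuous_abs.pow p).mul (continuous_abs.comp
      (Phi_smooth.continuous_iteratedDeriv n (by exact_mod_cast le_top)))
  obtain ⟨C2, hC2⟩ := (isCompact_Icc (a := (-(1/2):ℝ)) (b := 1 / 2)).exists_bound_of_continuousOn
    hc.continuousOn
  have hpos : ∀ ξ : ℝ, 1 / 2 ≤ ξ → |ξ| ^ p * |iteratedDeriv n Phi ξ| ≤ C := by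
    intro ξ hξ
    obtain ⟨i, hi1, hi2⟩ := exists_nat_pow_near (x := 2 * ξ) (y := 2) (by linarith) (by norm_num)
    rw [pow_succ] at hi2
    have h1 : 2 ^ i / 2 ≤ ξ := by linarith
    have h2 : ξ ≤ 2 ^ i := by linarith
    have hξ0 : 0 < ξ := by linarith
    rw [abs_of_pos hξ0]
    rcases lt_or_ge (1 / 6) |ξ - 2 ^ i * (2 / 3)| with h3 | h3
    · rw [van i ξ h1 h2 h3 n, abs_zero, mul_zero]
      exact hC0
    · have h4 := hC i ξ h1 h2 n le_rfl
      set L : ℝ := 2 ^ n * M / 2 ^ N with hL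
      have hL0 : 0 ≤ L := by positivity
      have h5 : |ξ - 2 ^ i * (2 / 3)| ^ N ≤ 1 := pow_le_one₀ (abs_nonneg _) (by linarith)
      have h6 : 2 ^ p * L ≤ 1 := by
        rw [hL]
        have : (2:ℝ) ^ p * (2 ^ n * M / 2 ^ N) = 2 ^ n * M * 2 ^ p / 2 ^ N := by ring
        rw [this, div_le_one (by positivity)]
        exact hN.le
      calc ξ ^ p * |iteratedDeriv n Phi ξ| ≤ (2 ^ i) ^ p * (C * L ^ i * 1) := by
            gcongr
            exact h4.trans (by gcongr)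
        _ = C * (2 ^ p * L) ^ i := by
            rw [mul_pow, ← pow_mul, ← pow_mul, mul_comm i p]
            ring
        _ ≤ C * 1 := by
            gcongr
            exact pow_le_one₀ (by positivity) h6
        _ = C := mul_one C
  refine ⟨max C C2, fun ξ => ?_⟩
  rcases le_or_gt (1 / 2) |ξ| with h | h
  · apply le_max_of_le_left
    rcases le_total 0 ξ with h0 | h0
    · rw [abs_of_nonneg h0] at h
      exact hpos ξ h
    · rw [abs_of_nonpos h0] at h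
      have := hpos (-ξ) h
      rwa [abs_neg, Phi_iter_even] at this
  · apply le_max_of_le_right
    have h1 := abs_lt.mp h
    have h2 := hC2 ξ ⟨h1.1.le, h1.2.le⟩
    rw [Real.norm_eq_abs] at h2
    exact (le_abs_self _).trans h2

end

end Pool.Agent.V11282.WV
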