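import Mathlib
import Pool.Agent.V11282.WV.Phi

/-!
Periodizations, Parseval, splitting.
-/

set_option autoImplicit false

open Set Filter Topology MeasureTheory TopologicalSpace Asymptotics
open scoped FourierTransform

namespace Pool.Agent.V11282.WV

noncomputable section

/-- continuous functions of quadratic decay -/
structure RD (F : ℝ → ℂ) : Prop where
  cont : Continuous F
  bd : ∃ C : ℝ, ∀ x, ‖F x‖ * (1 + x ^ 2) ≤ C

/-- periodization -/
def per (F : ℝ → ℂ) (x : ℝ) : ℂ := ∑' n : ℤ, F (x + n)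

lemma RD.ls {F : ℝ → ℂ} (hF : RD F) (K : Compacts ℝ) : Summable fun n : ℤ =>
    ‖((⟨F, hF.cont⟩ : C(ℝ, ℂ)).comp (ContinuousMap.addRight n)).restrict K‖ := by
  have hO : (⟨F, hF.cont⟩ : C(ℝ, ℂ)) =O[cocompact ℝ] (fun x : ℝ => |x| ^ (-(2:ℝ))) := by
    obtain ⟨C, hC⟩ := hF.bd
    apply IsBigO.of_bound C
    have h1 : ∀ᶠ x : ℝ in cocompact ℝ, x ≠ 0 := by
      have := (isCompact_singleton (x := (0:ℝ))).compl_mem_cocompact
      exact this
    filter_upwards [h1] with x hx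
    have hx2 : 0 < x ^ 2 := by positivity
    have h2 := hC x
    have e : |x| ^ (-(2:ℝ)) = (x ^ 2)⁻¹ := by
      rw [Real.rpow_neg (abs_nonneg x), Real.rpow_two, sq_abs]
    rw [e, norm_inv, Real.norm_eq_abs, abs_of_pos hx2, ← div_eq_mul_inv, le_div_iff₀ hx2]
    have h3 : 0 ≤ ‖F x‖ := norm_nonneg _
    change ‖F x‖ * x ^ 2 ≤ C
    nlinarith
  exact summable_of_isBigO (Real.summable_abs_int_rpow (by norm_num : (1:ℝ) < 2))
    ((isBigO_norm_restrict_cocompact ⟨_, hF.cont⟩ (by norm_num) hO K).comp_tendsto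
    Int.tendsto_coe_cofinite)

lemma RD.hasSum {F : ℝ → ℂ} (hF : RD F) (x : ℝ) : HasSum (fun n : ℤ => F (x + n))
    ((∑' n : ℤ, (⟨F, hF.cont⟩ : C(ℝ, ℂ)).comp (ContinuousMap.addRight n)) x) := by
  have h := ContinuousMap.hasSum_apply
    (ContinuousMap.summable_of_locally_summable_norm hF.ls).hasSum x
  exact h

lemma RD.summable {F : ℝ → ℂ} (hF : RD F) (x : ℝ) : Summable (fun n : ℤ => F (x + n)) :=
  (hF.hasSum x).summable

lemma RD.per_eq {F : ℝ → ℂ} (hF : RD F) (x : ℝ) :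
    per F x = (∑' n : ℤ, (⟨F, hF.cont⟩ : C(ℝ, ℂ)).comp (ContinuousMap.addRight n)) x :=
  (hF.hasSum x).tsum_eq

lemma RD.per_cont {F : ℝ → ℂ} (hF : RD F) : Continuous (per F) := by
  have e : per F = ⇑(∑' n : ℤ, (⟨F, hF.cont⟩ : C(ℝ, ℂ)).comp (ContinuousMap.addRight n)) := by
    funext x
    exact hF.per_eq x
  rw [e]
  exact map_continuous _

lemma per_one (F : ℝ → ℂ) (x : ℝ) : per F (x + 1) = per F x := by
  unfold per
  rw [← (Equiv.addLeft (1:ℤ)).tsum_eq (fun n : ℤ => F (x + n))]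
  congr 1
  funext n
  simp only [Equiv.coe_addLeft]
  push_cast
  congr 1
  ring

/-- the energy on one period -/
def QQ (F : ℝ → ℂ) : ℝ := ∫ x in (0:ℝ)..1, ‖per F x‖ ^ 2

lemma QQ_nonneg (F : ℝ → ℂ) : 0 ≤ QQ F :=
  intervalIntegral.integral_nonneg (by norm_num) (fun _ _ => by positivity)

/-- Parseval -/
theorem parseval {F : ℝ → ℂ} (hF : RD F) : HasSum (fun m : ℤ => ‖𝓕 F m‖ ^ 2) (QQ F) := by
  set f : C(ℝ, ℂ) := ⟨F, hF.cont⟩ with hf
  set G : C(UnitAddCircle, ℂ) :=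
    ⟨(f.periodic_tsum_comp_add_zsmul 1).lift, continuous_coinduced_dom.mpr (map_continuous _)⟩
    with hG
  have h1 : ∀ m : ℤ, fourierCoeff G m = 𝓕 F m := by
    intro m
    exact Real.fourierCoeff_tsum_comp_add hF.ls m
  have h2 := hasSum_sq_fourierCoeff (ContinuousMap.toLp (E := ℂ) 2 AddCircle.haarAddCircle ℂ G)
  simp only [fourierCoeff_toLp, h1] at h2
  have h3 : ∫ t : UnitAddCircle, ‖(ContinuousMap.toLp (E := ℂ) 2 AddCircle.haarAddCircle ℂ G) t‖ ^ 2
      ∂AddCircle.haarAddCircle = QQ F := by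
    have h4 : ∫ t : UnitAddCircle, ‖(ContinuousMap.toLp (E := ℂ) 2 AddCircle.haarAddCircle ℂ G) t‖ ^ 2
        ∂AddCircle.haarAddCircle = ∫ t : UnitAddCircle, ‖G t‖ ^ 2 ∂AddCircle.haarAddCircle := by
      apply integral_congr_ae
      filter_upwards [ContinuousMap.coeFn_toAEEqFun AddCircle.haarAddCircle G] with t ht
      have : (ContinuousMap.toLp (E := ℂ) 2 AddCircle.haarAddCircle ℂ G) t = G t := ht
      rw [this]
    rw [h4, AddCircle.integral_haarAddCircle, inv_one, one_smul,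
      ← UnitAddCircle.intervalIntegral_preimage 0, zero_add]
    unfold QQ
    apply intervalIntegral.integral_congr
    intro x _
    simp only
    rw [hF.per_eq]
    have e : G (x : UnitAddCircle) = (∑' n : ℤ, f.comp (ContinuousMap.addRight n)) x := by
      rw [hG]
      simp only [ContinuousMap.coe_mk, Function.Periodic.lift_coe, zsmul_one]
    rw [e]
  rw [h3] at h2
  exact h2

lemma hasSum_int_even_odd {f : ℤ → ℂ} {a b : ℂ} (ha : HasSum (fun k => f (2 * k)) a)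
    (hb : HasSum (fun k => f (2 * k + 1)) b) : HasSum f (a + b) := by
  have := mul_right_injective₀ (two_ne_zero' ℤ)
  replace hb := ((add_left_injective 1).comp this).hasSum_range_iff.2 hb
  refine (this.hasSum_range_iff.2 ha).add_isCompl ?_ hb
  have h1 : Set.range (fun k : ℤ => 2 * k) = {n : ℤ | Even n} := by
    ext n
    simp only [Set.mem_range, Set.mem_setOf_eq, even_iff_exists_two_mul]
    constructor
    · rintro ⟨k, rfl⟩; exact ⟨k, rfl⟩
    · rintro ⟨k, rfl⟩; exact ⟨k, rfl⟩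
  have h2 : Set.range ((fun k : ℤ => k + 1) ∘ (fun k : ℤ => 2 * k)) = {n : ℤ | Odd n} := by
    ext n
    simp only [Set.mem_range, Set.mem_setOf_eq, Function.comp_apply]
    constructor
    · rintro ⟨k, rfl⟩; exact ⟨k, rfl⟩
    · rintro ⟨k, rfl⟩; exact ⟨k, rfl⟩
  rw [h1, h2]
  exact Int.isCompl_even_odd

lemma per_split {F m : ℝ → ℂ} (hs : ∀ x, Summable (fun n : ℤ => F (x + n)))
    (hm : ∀ (x : ℝ) (k : ℤ), m (x + k) = m x) (x : ℝ) :
    per (fun y => F (y / 2) * m (y / 2)) x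
      = m (x / 2) * per F (x / 2) + m (x / 2 + 1 / 2) * per F (x / 2 + 1 / 2) := by
  unfold per
  apply HasSum.tsum_eq
  apply hasSum_int_even_odd
  · have h := (hs (x / 2)).hasSum.mul_left (m (x / 2))
    have hfun : (fun k : ℤ => F ((x + ((2 * k : ℤ) : ℝ)) / 2) * m ((x + ((2 * k : ℤ) : ℝ)) / 2))
        = fun k : ℤ => m (x / 2) * F (x / 2 + k) := by
      funext k
      have e : (x + ((2 * k : ℤ) : ℝ)) / 2 = x / 2 + k := by push_cast; ring
      rw [e, hm]
      ring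
    rw [hfun]
    exact h
  · have h := (hs (x / 2 + 1 / 2)).hasSum.mul_left (m (x / 2 + 1 / 2))
    have hfun : (fun k : ℤ => F ((x + ((2 * k + 1 : ℤ) : ℝ)) / 2)
        * m ((x + ((2 * k + 1 : ℤ) : ℝ)) / 2))
        = fun k : ℤ => m (x / 2 + 1 / 2) * F (x / 2 + 1 / 2 + k) := by
      funext k
      have e : (x + ((2 * k + 1 : ℤ) : ℝ)) / 2 = x / 2 + 1 / 2 + k := by push_cast; ring
      rw [e, hm]
      ring
    rw [hfun]
    exact h

/-- the complex low-pass filter -/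
def mc (x : ℝ) : ℂ := (m0 x : ℂ)

/-- the conjugate high-pass filter -/
def hc (x : ℝ) : ℂ := Complex.exp (-(2 * Real.pi * x : ℝ) * Complex.I) * (m0 (x + 1 / 2) : ℂ)

lemma mc_per (x : ℝ) (k : ℤ) : mc (x + k) = mc x := by
  unfold mc
  rw [m0_per]

lemma hc_per (x : ℝ) (k : ℤ) : hc (x + k) = hc x := by
  unfold hc
  have e1 : x + k + 1 / 2 = x + 1 / 2 + k := by ring
  rw [e1, m0_per]
  congr 1
  have e2 : (-((2 * Real.pi * (x + k) : ℝ) : ℂ) * Complex.I)
      = -((2 * Real.pi * x : ℝ) : ℂ) * Complex.I - (k : ℂ) * (2 * Real.pi * Complex.I) := by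
    push_cast
    ring
  rw [e2]
  exact Complex.exp_periodic.sub_int_mul_eq k

lemma hc_half (x : ℝ) :
    hc (x + 1 / 2) = -(Complex.exp (-(2 * Real.pi * x : ℝ) * Complex.I) * (m0 x : ℂ)) := by
  unfold hc
  have e1 : x + 1 / 2 + 1 / 2 = x + 1 := by ring
  rw [e1, m0_per1]
  have e2 : (-((2 * Real.pi * (x + 1 / 2) : ℝ) : ℂ) * Complex.I)
      = -((2 * Real.pi * x : ℝ) : ℂ) * Complex.I - Real.pi * Complex.I := by
    push_cast
    ring
  rw [e2, Complex.exp_sub, Complex.exp_pi_mul_I]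
  ring

lemma exp_norm_one (x : ℝ) : ‖Complex.exp (-(x : ℝ) * Complex.I)‖ = 1 := by
  rw [← Complex.ofReal_neg]
  exact Complex.norm_exp_ofReal_mul_I _

lemma unitary_id (a b : ℝ) (h : a ^ 2 + b ^ 2 = 1) (e X Y : ℂ) (he : ‖e‖ = 1) :
    ‖(a : ℂ) * X + (b : ℂ) * Y‖ ^ 2 + ‖e * (b : ℂ) * X + -(e * (a : ℂ)) * Y‖ ^ 2
      = ‖X‖ ^ 2 + ‖Y‖ ^ 2 := by
  have h1 : e * (b : ℂ) * X + -(e * (a : ℂ)) * Y = e * ((b : ℂ) * X - (a : ℂ) * Y) := by ring
  rw [h1, norm_mul, he, one_mul]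
  have hn : ∀ z : ℂ, ‖z‖ ^ 2 = z.re ^ 2 + z.im ^ 2 := by
    intro z
    rw [Complex.sq_norm, Complex.normSq_apply]; ring
  rw [hn, hn, hn, hn]
  simp only [Complex.add_re, Complex.add_im, Complex.sub_re, Complex.sub_im, Complex.re_ofReal_mul,
    Complex.im_ofReal_mul]
  have : (a * X.re + b * Y.re) ^ 2 + (a * X.im + b * Y.im) ^ 2
      + ((b * X.re - a * Y.re) ^ 2 + (b * X.im - a * Y.im) ^ 2)
      = (a ^ 2 + b ^ 2) * (X.re ^ 2 + X.im ^ 2 + (Y.re ^ 2 + Y.im ^ 2)) := by ring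
  rw [this, h, one_mul]

/-- the splitting of the energy -/
theorem QQ_split {F : ℝ → ℂ} (hF : RD F) (hA : RD (fun y => F (y / 2) * mc (y / 2)))
    (hB : RD (fun y => F (y / 2) * hc (y / 2))) :
    QQ (fun y => F (y / 2) * mc (y / 2)) + QQ (fun y => F (y / 2) * hc (y / 2)) = 2 * QQ F := by
  have hcont : Continuous fun x => ‖per F x‖ ^ 2 := (hF.per_cont.norm).pow 2
  have hAc : Continuous fun x => ‖per (fun y => F (y / 2) * mc (y / 2)) x‖ ^ 2 :=
    (hA.per_cont.norm).pow 2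
  have hBc : Continuous fun x => ‖per (fun y => F (y / 2) * hc (y / 2)) x‖ ^ 2 :=
    (hB.per_cont.norm).pow 2
  unfold QQ
  rw [← intervalIntegral.integral_add (hAc.intervalIntegrable _ _)
    (hBc.intervalIntegrable _ _)]
  have e : ∀ x : ℝ, ‖per (fun y => F (y / 2) * mc (y / 2)) x‖ ^ 2
      + ‖per (fun y => F (y / 2) * hc (y / 2)) x‖ ^ 2
      = ‖per F (x / 2)‖ ^ 2 + ‖per F (x / 2 + 1 / 2)‖ ^ 2 := by
    intro x
    rw [per_split hF.summable mc_per, per_split hF.summable hc_per, hc_half]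
    exact unitary_id (m0 (x / 2)) (m0 (x / 2 + 1 / 2)) (m0_qmf _) _ _ _ (exp_norm_one _)
  simp_rw [e]
  rw [intervalIntegral.integral_add, intervalIntegral.integral_comp_div (fun x => ‖per F x‖ ^ 2)
    (by norm_num : (2:ℝ) ≠ 0), intervalIntegral.integral_comp_div_add (fun x => ‖per F x‖ ^ 2)
    (by norm_num : (2:ℝ) ≠ 0)]
  · simp only [zero_div, zero_add, smul_eq_mul]
    have e2 : (1:ℝ) / 2 + 1 / 2 = 1 := by norm_num
    rw [e2, ← mul_add, intervalIntegral.integral_add_adjacent_intervals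
      (hcont.intervalIntegrable _ _) (hcont.intervalIntegrable _ _)]
  · exact (hcont.comp (continuous_id.div_const 2)).intervalIntegrable _ _
  · exact (hcont.comp ((continuous_id.div_const 2).add continuous_const)).intervalIntegrable _ _

/-- the energy of a function supported in `(-1/2, 1/2)` -/
lemma QQ_small {F : ℝ → ℂ} (h0 : ∀ x, 1 / 2 ≤ |x| → F x = 0) :
    QQ F = ∫ x, ‖F x‖ ^ 2 := by
  unfold QQ
  have hp : Function.Periodic (fun x => ‖per F x‖ ^ 2) 1 := by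
    intro x
    simp only
    rw [per_one]
  have h1 := hp.intervalIntegral_add_eq 0 (-(1/2))
  rw [zero_add] at h1
  rw [h1]
  have e : -(1/2 : ℝ) + 1 = 1 / 2 := by norm_num
  rw [e]
  have h2 : ∀ x ∈ uIcc (-(1/2):ℝ) (1/2), ‖per F x‖ ^ 2 = ‖F x‖ ^ 2 := by
    intro x hx
    rw [uIcc_of_le (by norm_num)] at hx
    congr 2
    unfold per
    rw [tsum_eq_single 0]
    · simp
    · intro n hn
      apply h0
      have h3 : (1:ℝ) ≤ |(n:ℝ)| := by
        have : (1:ℤ) ≤ |n| := Int.one_le_abs hn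
        exact_mod_cast this
      have h4 : |x| ≤ 1 / 2 := abs_le.mpr hx
      have h5 : |(n:ℝ)| ≤ |x + n| + |x| := by
        have : (n:ℝ) = (x + n) - x := by ring
        nth_rewrite 1 [this]
        exact abs_sub _ _
      linarith
  rw [intervalIntegral.integral_congr h2, intervalIntegral.integral_of_le (by norm_num),
    setIntegral_eq_integral_of_forall_compl_eq_zero]
  intro x hx
  have : 1 / 2 ≤ |x| := by
    by_contra hcon
    push Not at hcon
    have h3 := abs_lt.mp hcon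
    exact hx ⟨h3.1, h3.2.le⟩
  rw [h0 x this, norm_zero]
  norm_num

end

end Pool.Agent.V11282.WV
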