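import Mathlib
import Pool.Agent.V11282.WV.Per

/-!
The sum of squares of the translates of the scaling function is one; the norm of the wavelet.
-/

set_option autoImplicit false

open Set Filter Topology MeasureTheory TopologicalSpace
open scoped FourierTransform ComplexConjugate

namespace Pool.Agent.V11282.WV

noncomputable section

lemma lawton (s : ℝ → ℝ) (hc : Continuous s) (hp : ∀ x, s (x + 1) = s x)
    (hf : ∀ x, s x = m0 (x / 2) ^ 2 * s (x / 2) + m0 (x / 2 + 1 / 2) ^ 2 * s (x / 2 + 1 / 2)) :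
    ∀ x, s 0 ≤ s x := by
  obtain ⟨x0, hx0, hmin⟩ := (isCompact_Icc (a := (-(1/2):ℝ)) (b := 1 / 2)).exists_isMinOn
    ⟨0, by constructor <;> norm_num⟩ hc.continuousOn
  have hper : Function.Periodic s 1 := hp
  have hall : ∀ y, s x0 ≤ s y := by
    intro y
    have h1 := abs_le.mp (abs_sub_round y)
    have h2 : s (y - round y) = s y := by
      have := hper.sub_int_mul_eq (x := y) (round y)
      rwa [mul_one] at this
    rw [← h2]
    exact hmin ⟨h1.1, h1.2⟩
  have hx0a : |x0| ≤ 1 / 2 := abs_le.mpr hx0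
  have key : ∀ n : ℕ, s (x0 / 2 ^ n) = s x0 := by
    intro n
    induction n with
    | zero => simp
    | succ n ih =>
      have e : x0 / 2 ^ (n + 1) = x0 / 2 ^ n / 2 := by rw [pow_succ]; field_simp
      rw [e]
      set y := x0 / 2 ^ n with hy
      have hya : |y| ≤ 1 / 2 := by
        rw [hy, abs_div, abs_of_pos (by positivity : (0:ℝ) < 2 ^ n), div_le_iff₀ (by positivity)]
        have : (1:ℝ) ≤ 2 ^ n := one_le_pow₀ (by norm_num)
        linarith
      have hy2 : |y / 2| ≤ 1 / 4 := by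
        rw [abs_div, abs_of_pos (by norm_num : (0:ℝ) < 2)]
        linarith
      have hne : m0 (y / 2) ≠ 0 := m0_ne (by linarith) (by intro h; linarith)
      have h1 := hf y
      rw [ih] at h1
      have h2 := m0_qmf (y / 2)
      have h3 := hall (y / 2)
      have h4 := hall (y / 2 + 1 / 2)
      have h5 : 0 < m0 (y / 2) ^ 2 := by positivity
      have h6 : 0 ≤ m0 (y / 2 + 1 / 2) ^ 2 := by positivity
      have h7 : m0 (y / 2) ^ 2 * (s (y / 2) - s x0)
          + m0 (y / 2 + 1 / 2) ^ 2 * (s (y / 2 + 1 / 2) - s x0) = 0 := by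
        have : s x0 = (m0 (y / 2) ^ 2 + m0 (y / 2 + 1 / 2) ^ 2) * s x0 := by rw [h2, one_mul]
        linarith
      have h8 : 0 ≤ m0 (y / 2 + 1 / 2) ^ 2 * (s (y / 2 + 1 / 2) - s x0) :=
        mul_nonneg h6 (by linarith)
      have h9 : m0 (y / 2) ^ 2 * (s (y / 2) - s x0) ≤ 0 := by linarith
      have h10 : s (y / 2) - s x0 ≤ 0 := by
        by_contra hcon
        push Not at hcon
        have := mul_pos h5 hcon
        linarith
      linarith
  have hlim : Tendsto (fun n : ℕ => s (x0 / 2 ^ n)) atTop (𝓝 (s 0)) := by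
    apply (hc.tendsto 0).comp
    have h1 : Tendsto (fun n : ℕ => x0 * (1 / 2) ^ n) atTop (𝓝 (x0 * 0)) :=
      (tendsto_pow_atTop_nhds_zero_of_lt_one (by norm_num) (by norm_num)).const_mul x0
    rw [mul_zero] at h1
    refine h1.congr fun n => ?_
    rw [one_div, inv_pow]
    rfl
  have h0 : s 0 = s x0 := by
    apply tendsto_nhds_unique hlim
    simp_rw [key]
    exact tendsto_const_nhds
  intro x
  rw [h0]
  exact hall x

lemma Phi_int (n : ℤ) (hn : n ≠ 0) : Phi n = 0 := by
  have key : ∀ N : ℕ, ∀ n : ℤ, n ≠ 0 → n.natAbs ≤ N → Phi n = 0 := by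
    intro N
    induction N with
    | zero =>
      intro n hn h
      omega
    | succ N ih =>
      intro n hn h
      rcases Int.even_or_odd' n with ⟨k, hk | hk⟩
      · rw [hk]
        push_cast
        rw [Phi_two, ih k (by omega) (by omega), mul_zero]
      · have h1 := Phi_half n
        have e : (1 / 2 : ℝ) * n = 1 / 2 + k := by rw [hk]; push_cast; ring
        rw [h1, e, m0_per, m0_zero (by norm_num) (by norm_num), zero_mul]
  exact key n.natAbs n hn le_rfl

/-- square of the scaling function -/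
def Gs (x : ℝ) : ℂ := ((Phi x ^ 2 : ℝ) : ℂ)

lemma Phi_rd : ∃ C : ℝ, 0 ≤ C ∧ ∀ x, |Phi x| * (1 + x ^ 2) ≤ C := by
  obtain ⟨C, hC⟩ := Phi_decay 2 0
  refine ⟨1 + C, ?_, fun x => ?_⟩
  · have := hC 0
    simp only [abs_zero, iteratedDeriv_zero] at this
    norm_num at this
    linarith
  · have h1 := hC x
    rw [iteratedDeriv_zero, sq_abs] at h1
    have h2 := Phi_abs x
    nlinarith

lemma rd_of_le {F : ℝ → ℂ} (hF : Continuous F) (K : ℝ) (h : ∀ x, ‖F x‖ ≤ K * |Phi x|)
    (hK : 0 ≤ K) : RD F := by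
  obtain ⟨C, _, hC⟩ := Phi_rd
  refine ⟨hF, K * C, fun x => ?_⟩
  have h1 : 0 < 1 + x ^ 2 := by positivity
  calc ‖F x‖ * (1 + x ^ 2) ≤ K * |Phi x| * (1 + x ^ 2) := by
        gcongr
        exact h x
    _ = K * (|Phi x| * (1 + x ^ 2)) := by ring
    _ ≤ K * C := by
        gcongr
        exact hC x

lemma Phi_cont : Continuous Phi := Phi_smooth.continuous

lemma m0_cont : Continuous m0 := m0_smooth.continuous

lemma Gs_rd : RD Gs := by
  apply rd_of_le (K := 1) _ _ (by norm_num)
  · unfold Gs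
    exact Complex.continuous_ofReal.comp (Phi_cont.pow 2)
  · intro x
    unfold Gs
    rw [Complex.norm_real, Real.norm_eq_abs, abs_pow, one_mul]
    have := Phi_abs x
    have := abs_nonneg (Phi x)
    nlinarith

lemma Gs_per (x : ℝ) : per Gs x = 1 := by
  set s : ℝ → ℝ := fun x => (per Gs x).re with hs
  have hc : Continuous s := Complex.continuous_re.comp Gs_rd.per_cont
  have hp : ∀ x, s (x + 1) = s x := by
    intro x
    simp only [hs]
    rw [per_one]
  have hfun : Gs = fun y => Gs (y / 2) * (mc (y / 2) ^ 2) := by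
    funext y
    unfold Gs mc
    have := Phi_two (y / 2)
    have e : 2 * (y / 2) = y := by ring
    rw [e] at this
    rw [this]
    push_cast
    ring
  have hf : ∀ x, per Gs x = mc (x / 2) ^ 2 * per Gs (x / 2)
      + mc (x / 2 + 1 / 2) ^ 2 * per Gs (x / 2 + 1 / 2) := by
    intro x
    have h := per_split (F := Gs) (m := fun y => mc y ^ 2) Gs_rd.summable
      (fun x k => by simp only [mc_per]) x
    rw [← hfun] at h
    exact h
  have hfre : ∀ x, s x = m0 (x / 2) ^ 2 * s (x / 2) + m0 (x / 2 + 1 / 2) ^ 2 * s (x / 2 + 1 / 2) := by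
    intro x
    simp only [hs]
    rw [hf x]
    unfold mc
    rw [← Complex.ofReal_pow, ← Complex.ofReal_pow, Complex.add_re, Complex.re_ofReal_mul,
      Complex.re_ofReal_mul]
  have hreal : ∀ x, (per Gs x).im = 0 := by
    intro x
    unfold per Gs
    rw [← Complex.ofReal_tsum]
    exact Complex.ofReal_im _
  have h0 : s 0 = 1 := by
    simp only [hs]
    unfold per
    rw [tsum_eq_single 0]
    · unfold Gs
      simp only [Int.cast_zero, add_zero]
      rw [Phi_one (by norm_num)]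
      norm_num
    · intro n hn
      unfold Gs
      rw [zero_add, Phi_int n hn]
      norm_num
  have h1 := lawton s hc hp hfre x
  have h2 := lawton (fun x => -s x) hc.neg (fun x => by simp only [hp]) (fun x => by
    rw [hfre x]
    ring) x
  have h3 : s x = 1 := by
    linarith
  apply Complex.ext
  · exact h3
  · rw [hreal]
    rfl

lemma int_per {F : ℝ → ℂ} (hF : RD F) : ∫ x, F x = ∫ x in (0:ℝ)..1, per F x := by
  have h1 := Real.fourierCoeff_tsum_comp_add hF.ls 0
  rw [fourierCoeff_eq_intervalIntegral _ 0 0] at h1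
  have h2 : 𝓕 (⇑(⟨F, hF.cont⟩ : C(ℝ, ℂ))) (((0:ℤ)) : ℝ) = ∫ x, F x := by
    rw [Real.fourier_real_eq_integral_exp_smul]
    apply integral_congr_ae
    refine Eventually.of_forall fun x => ?_
    simp
  rw [h2] at h1
  rw [← h1]
  simp only [div_one, one_smul, zero_add, neg_zero, fourier_zero]
  apply intervalIntegral.integral_congr
  intro x _
  simp only [Function.Periodic.lift_coe, zsmul_one]
  exact (hF.per_eq x).symm

lemma m0_int : 2 * ∫ x in (0:ℝ)..1, m0 (x + 1 / 2) ^ 2 = 1 := by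
  have hp : Function.Periodic (fun x => m0 x ^ 2) 1 := by
    intro x
    simp only
    rw [m0_per1]
  have h1 : ∫ x in (0:ℝ)..1, m0 (x + 1 / 2) ^ 2 = ∫ x in (0:ℝ)..1, m0 x ^ 2 := by
    rw [intervalIntegral.integral_comp_add_right (fun x => m0 x ^ 2)]
    have := hp.intervalIntegral_add_eq (0 + 1 / 2) 0
    rw [zero_add] at this ⊢
    rw [zero_add] at this
    have e : (1:ℝ) + 1 / 2 = 1 / 2 + 1 := by ring
    rw [e]
    exact this
  have h2 : ∫ x in (0:ℝ)..1, (m0 x ^ 2 + m0 (x + 1 / 2) ^ 2) = 1 := by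
    simp_rw [m0_qmf]
    simp
  have hc1 : Continuous fun x : ℝ => m0 x ^ 2 := m0_cont.pow 2
  have hc2 : Continuous fun x : ℝ => m0 (x + 1 / 2) ^ 2 :=
    (m0_cont.comp (continuous_id.add continuous_const)).pow 2
  rw [intervalIntegral.integral_add (hc1.intervalIntegrable _ _)
    (hc2.intervalIntegrable _ _)] at h2
  linarith

lemma Psi_norm : ∫ x : ℝ, (m0 (x / 2 + 1 / 2) * Phi (x / 2)) ^ 2 = 1 := by
  have h0 : ∫ x : ℝ, (m0 (x / 2 + 1 / 2) * Phi (x / 2)) ^ 2
      = 2 * ∫ x : ℝ, (m0 (x + 1 / 2) * Phi x) ^ 2 := by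
    have := Measure.integral_comp_div (fun x : ℝ => (m0 (x + 1 / 2) * Phi x) ^ 2) 2
    rw [abs_of_pos (by norm_num : (0:ℝ) < 2), smul_eq_mul] at this
    exact this
  have hrd : RD (fun x => (((m0 (x + 1 / 2) * Phi x) ^ 2 : ℝ) : ℂ)) := by
    apply rd_of_le (K := 1) _ _ (by norm_num)
    · exact Complex.continuous_ofReal.comp (((m0_cont.comp
        (continuous_id.add continuous_const)).mul Phi_cont).pow 2)
    · intro x
      rw [Complex.norm_real, Real.norm_eq_abs, abs_pow, abs_mul, one_mul]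
      have h1 := Phi_abs x
      have h2 := abs_nonneg (Phi x)
      have h3 := m0_le_one (x + 1 / 2)
      have h4 := abs_nonneg (m0 (x + 1 / 2))
      have h5 : |m0 (x + 1 / 2)| * |Phi x| ≤ |Phi x| := by nlinarith
      have h6 : 0 ≤ |m0 (x + 1 / 2)| * |Phi x| := by positivity
      nlinarith
  have h1 := int_per hrd
  have h2 : ∀ x : ℝ, per (fun x => (((m0 (x + 1 / 2) * Phi x) ^ 2 : ℝ) : ℂ)) x
      = ((m0 (x + 1 / 2) ^ 2 : ℝ) : ℂ) := by
    intro x
    have h3 : per (fun x => (((m0 (x + 1 / 2) * Phi x) ^ 2 : ℝ) : ℂ)) x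
        = ((m0 (x + 1 / 2) ^ 2 : ℝ) : ℂ) * per Gs x := by
      unfold per
      rw [← tsum_mul_left]
      congr 1
      funext n
      unfold Gs
      have e : x + (n:ℝ) + 1 / 2 = x + 1 / 2 + n := by ring
      change (((m0 (x + n + 1 / 2) * Phi (x + n)) ^ 2 : ℝ) : ℂ) = _
      rw [e, m0_per]
      push_cast
      ring
    rw [h3, Gs_per, mul_one]
  simp_rw [h2] at h1
  rw [integral_complex_ofReal, intervalIntegral.integral_ofReal] at h1
  have h3 : ∫ x : ℝ, (m0 (x + 1 / 2) * Phi x) ^ 2 = ∫ x in (0:ℝ)..1, m0 (x + 1 / 2) ^ 2 := by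
    exact_mod_cast h1
  rw [h0, h3]
  exact m0_int

end

end Pool.Agent.V11282.WV
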