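import Mathlib
import Pool.Agent.V11282.WV.Sone

/-!
Schwartz functions: the wavelet and its dilates and translates.
-/

set_option autoImplicit false

open Set Filter Topology MeasureTheory
open scoped FourierTransform ComplexConjugate SchwartzMap ContDiff

namespace Pool.Agent.V11282.WV

noncomputable section

lemma m0_tg : Function.HasTemperateGrowth m0 := by
  refine ⟨m0_smooth, fun n => ?_⟩
  obtain ⟨C, _, hC⟩ := m0_iter_bdd n
  refine ⟨0, C, fun x => ?_⟩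
  rw [pow_zero, mul_one, norm_iteratedFDeriv_eq_norm_iteratedDeriv]
  exact hC x

/-- the complex exponential -/
def ex (x : ℝ) : ℂ := Complex.exp ((x : ℂ) * Complex.I)

lemma ex_norm (x : ℝ) : ‖ex x‖ = 1 := Complex.norm_exp_ofReal_mul_I _

lemma ex_smooth : ContDiff ℝ ∞ ex := by
  unfold ex
  exact (Complex.contDiff_exp (𝕜 := ℝ)).comp (Complex.ofRealCLM.contDiff.mul contDiff_const)

lemma ex_deriv (x : ℝ) : HasDerivAt ex (Complex.I * ex x) x := by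
  have h1 : HasDerivAt (fun y : ℝ => (y : ℂ) * Complex.I) (1 * Complex.I) x :=
    (Complex.ofRealCLM.hasDerivAt (x := x)).mul_const Complex.I
  have h2 := h1.cexp
  unfold ex
  convert! h2 using 1
  ring

lemma ex_iter (n : ℕ) : iteratedDeriv n ex = fun x => Complex.I ^ n * ex x := by
  induction n with
  | zero => funext x; simp
  | succ n ih =>
    rw [iteratedDeriv_succ, ih]
    funext x
    have := (ex_deriv x).const_mul (Complex.I ^ n)
    rw [this.deriv, pow_succ]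
    ring

lemma ex_tg : Function.HasTemperateGrowth ex := by
  refine ⟨ex_smooth, fun n => ⟨0, 1, fun x => ?_⟩⟩
  rw [norm_iteratedFDeriv_eq_norm_iteratedDeriv, ex_iter]
  simp [ex_norm]

/-- the scaling function as a Schwartz function -/
def PhiS : 𝓢(ℝ, ℂ) where
  toFun := fun ξ => (Phi ξ : ℂ)
  smooth' := Complex.ofRealCLM.contDiff.comp Phi_smooth
  decay' := by
    intro p n
    obtain ⟨C, hC⟩ := Phi_decay p n
    refine ⟨C, fun x => ?_⟩
    have h : ‖iteratedFDeriv ℝ n (fun ξ => (Phi ξ : ℂ)) x‖ = |iteratedDeriv n Phi x| := by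
      have := Complex.ofRealLI.norm_iteratedFDeriv_comp_left (f := Phi) (n := ∞) (i := n) (x := x)
        Phi_smooth.contDiffAt (by exact_mod_cast le_top)
      rw [← Real.norm_eq_abs, ← norm_iteratedFDeriv_eq_norm_iteratedDeriv]
      exact this
    rw [h]
    exact hC x

lemma exists_aff (F : 𝓢(ℝ, ℂ)) (a c : ℝ) (b : ℂ) (ha : a ≠ 0) :
    ∃ G : 𝓢(ℝ, ℂ), ∀ ξ, G ξ = b * (ex (c * ξ) * F (a * ξ)) := by
  set e : ℝ ≃L[ℝ] ℝ := ContinuousLinearEquiv.unitsEquivAut ℝ (Units.mk0 a ha) with he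
  have hg : Function.HasTemperateGrowth (fun ξ : ℝ => ex (c * ξ)) := by
    have h1 : Function.HasTemperateGrowth (fun ξ : ℝ => c * ξ) := by fun_prop
    exact ex_tg.comp h1
  refine ⟨b • SchwartzMap.smulLeftCLM ℂ (fun ξ : ℝ => ex (c * ξ))
    (SchwartzMap.compCLMOfContinuousLinearEquiv ℂ e F), fun ξ => ?_⟩
  rw [SchwartzMap.smul_apply, SchwartzMap.smulLeftCLM_apply_apply hg]
  simp only [smul_eq_mul, SchwartzMap.compCLMOfContinuousLinearEquiv_apply, Function.comp_apply]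
  have : e ξ = a * ξ := by
    rw [he]
    simp [mul_comm]
  rw [this]

/-- the Fourier transform of the wavelet -/
def Psi (ξ : ℝ) : ℂ := conj (hc (ξ / 2)) * (Phi (ξ / 2) : ℂ)

lemma conj_hc (x : ℝ) : conj (hc x) = ex (2 * Real.pi * x) * (m0 (x + 1 / 2) : ℂ) := by
  unfold hc ex
  rw [map_mul, ← Complex.exp_conj, Complex.conj_ofReal]
  congr 2
  rw [map_mul, map_neg, Complex.conj_ofReal, Complex.conj_I]
  ring

lemma exists_PsiS : ∃ G : 𝓢(ℝ, ℂ), ∀ ξ, G ξ = Psi ξ := by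
  obtain ⟨G, hG⟩ := exists_aff PhiS (1 / 2) Real.pi 1 (by norm_num)
  have hg : Function.HasTemperateGrowth (fun ξ : ℝ => (m0 (1 / 2 * ξ + 1 / 2) : ℂ)) := by
    have h1 : Function.HasTemperateGrowth (fun ξ : ℝ => 1 / 2 * ξ + 1 / 2) := by fun_prop
    exact Function.Complex.hasTemperateGrowth_ofReal.comp (m0_tg.comp h1)
  refine ⟨SchwartzMap.smulLeftCLM ℂ (fun ξ : ℝ => (m0 (1 / 2 * ξ + 1 / 2) : ℂ)) G, fun ξ => ?_⟩
  rw [SchwartzMap.smulLeftCLM_apply_apply hg, hG]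
  unfold Psi
  rw [conj_hc, one_mul, smul_eq_mul]
  have e1 : 2 * Real.pi * (ξ / 2) = Real.pi * ξ := by ring
  have e2 : 1 / 2 * ξ = ξ / 2 := by ring
  rw [e1, e2]
  change (m0 (ξ / 2 + 1 / 2) : ℂ) * (ex (Real.pi * ξ) * (Phi (ξ / 2) : ℂ)) = _
  ring

/-- the Fourier transform of the wavelet as a Schwartz function -/
def PsiS : 𝓢(ℝ, ℂ) := exists_PsiS.choose

lemma PsiS_apply (ξ : ℝ) : PsiS ξ = Psi ξ := exists_PsiS.choose_spec ξ

lemma Psi_cont : Continuous Psi := by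
  have : Psi = ⇑PsiS := by funext ξ; exact (PsiS_apply ξ).symm
  rw [this]
  exact PsiS.continuous

/-- the wavelet -/
def psi : 𝓢(ℝ, ℂ) := 𝓕⁻ PsiS

lemma psi_apply (x : ℝ) : psi x = ∫ ξ, ex (2 * Real.pi * ξ * x) * Psi ξ := by
  unfold psi
  rw [SchwartzMap.fourierInv_coe, Real.fourierInv_eq_fourier_neg,
    Real.fourier_real_eq_integral_exp_smul]
  apply integral_congr_ae
  refine Eventually.of_forall fun ξ => ?_
  simp only [smul_eq_mul]
  rw [PsiS_apply]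
  unfold ex
  congr 4
  ring

/-- `2 ^ (j / 2)` -/
def rt (j : ℤ) : ℝ := (2:ℝ) ^ ((j : ℝ) / 2)

lemma rt_pos (j : ℤ) : 0 < rt j := Real.rpow_pos_of_pos (by norm_num) _

lemma rt_sq (j : ℤ) : rt j ^ 2 = (2:ℝ) ^ j := by
  unfold rt
  rw [← Real.rpow_natCast, ← Real.rpow_mul (by norm_num), ← Real.rpow_intCast]
  congr 1
  push_cast
  ring

/-- the dilated and translated wavelet -/
def wv (f : ℝ → ℂ) (j k : ℤ) (x : ℝ) : ℂ := (rt j : ℂ) * f ((2:ℝ) ^ j * x - k)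

/-- its Fourier transform -/
def wh (j k : ℤ) (ξ : ℝ) : ℂ :=
  ((rt j)⁻¹ : ℂ) * (ex (-(2 * Real.pi * k / (2:ℝ) ^ j) * ξ) * Psi (((2:ℝ) ^ j)⁻¹ * ξ))

lemma exists_wh (j k : ℤ) : ∃ G : 𝓢(ℝ, ℂ), ∀ ξ, G ξ = wh j k ξ := by
  have h2 : (2:ℝ) ^ j ≠ 0 := (zpow_pos (by norm_num) j).ne'
  obtain ⟨G, hG⟩ := exists_aff PsiS (((2:ℝ) ^ j)⁻¹) (-(2 * Real.pi * k / (2:ℝ) ^ j))
    ((rt j)⁻¹ : ℂ) (inv_ne_zero h2)
  refine ⟨G, fun ξ => ?_⟩
  rw [hG, PsiS_apply]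
  rfl

/-- the Fourier transform as a Schwartz function -/
def whS (j k : ℤ) : 𝓢(ℝ, ℂ) := (exists_wh j k).choose

lemma whS_apply (j k : ℤ) (ξ : ℝ) : whS j k ξ = wh j k ξ := (exists_wh j k).choose_spec ξ

/-- the dilated and translated wavelet as a Schwartz function -/
def wvS (j k : ℤ) : 𝓢(ℝ, ℂ) := 𝓕⁻ (whS j k)

lemma wvS_fourier (j k : ℤ) : 𝓕 (wvS j k) = whS j k := by
  unfold wvS
  simp

lemma wvS_apply (j k : ℤ) (x : ℝ) : wvS j k x = wv psi j k x := by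
  have h2 : (0:ℝ) < (2:ℝ) ^ j := zpow_pos (by norm_num) j
  unfold wvS
  rw [SchwartzMap.fourierInv_coe, Real.fourierInv_eq_fourier_neg,
    Real.fourier_real_eq_integral_exp_smul]
  have e1 : ∀ ξ : ℝ, Complex.exp (((-2 * Real.pi * ξ * -x : ℝ) : ℂ) * Complex.I) • whS j k ξ
      = (fun η : ℝ => ((rt j)⁻¹ : ℂ) * (ex (2 * Real.pi * η * ((2:ℝ) ^ j * x - k)) * Psi η))
        (ξ / (2:ℝ) ^ j) := by
    intro ξ
    simp only [smul_eq_mul]
    rw [whS_apply]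
    unfold wh
    have e2 : (((2:ℝ) ^ j)⁻¹ * ξ) = ξ / (2:ℝ) ^ j := by rw [div_eq_inv_mul]
    rw [e2]
    have e3 : Complex.exp (((-2 * Real.pi * ξ * -x : ℝ) : ℂ) * Complex.I)
        * ex (-(2 * Real.pi * k / (2:ℝ) ^ j) * ξ)
        = ex (2 * Real.pi * (ξ / (2:ℝ) ^ j) * ((2:ℝ) ^ j * x - k)) := by
      unfold ex
      rw [← Complex.exp_add, ← add_mul, ← Complex.ofReal_add]
      congr 3
      field_simp
      ring
    rw [← e3]
    ring
  simp_rw [e1]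
  rw [Measure.integral_comp_div (fun η : ℝ => ((rt j)⁻¹ : ℂ)
    * (ex (2 * Real.pi * η * ((2:ℝ) ^ j * x - k)) * Psi η)), abs_of_pos h2, integral_const_mul,
    ← psi_apply, Complex.real_smul]
  unfold wv
  have h3 : (((2:ℝ) ^ j : ℝ) : ℂ) = (rt j : ℂ) ^ 2 := by
    rw [← rt_sq]
    push_cast
    ring
  have h4 : (rt j : ℂ) ≠ 0 := by exact_mod_cast (rt_pos j).ne'
  rw [h3]
  field_simp

/-- the coefficient of `g` -/
def cf (g : ℝ → ℂ) (j k : ℤ) : ℂ := ∫ ξ, conj (wh j k ξ) * g ξ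

lemma cf_eq (g : ℝ → ℂ) (j k : ℤ) :
    cf g j k = (rt j : ℂ) * 𝓕 (fun η => g ((2:ℝ) ^ j * η) * conj (Psi η)) ((-k : ℤ) : ℝ) := by
  have h2 : (0:ℝ) < (2:ℝ) ^ j := zpow_pos (by norm_num) j
  unfold cf
  rw [Real.fourier_real_eq_integral_exp_smul]
  have e1 : ∀ ξ : ℝ, conj (wh j k ξ) * g ξ
      = (fun η : ℝ => ((rt j)⁻¹ : ℂ) * (Complex.exp (((-2 * Real.pi * η * ((-k : ℤ) : ℝ) : ℝ) : ℂ)
        * Complex.I) • (g ((2:ℝ) ^ j * η) * conj (Psi η)))) (ξ / (2:ℝ) ^ j) := by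
    intro ξ
    simp only [smul_eq_mul]
    unfold wh
    have e2 : (((2:ℝ) ^ j)⁻¹ * ξ) = ξ / (2:ℝ) ^ j := by rw [div_eq_inv_mul]
    have e4 : (2:ℝ) ^ j * (ξ / (2:ℝ) ^ j) = ξ := by field_simp
    rw [e2, e4]
    have e3 : conj (ex (-(2 * Real.pi * k / (2:ℝ) ^ j) * ξ))
        = Complex.exp (((-2 * Real.pi * (ξ / (2:ℝ) ^ j) * ((-k : ℤ) : ℝ) : ℝ) : ℂ) * Complex.I) := by
      unfold ex
      rw [← Complex.exp_conj]
      congr 1
      rw [map_mul, Complex.conj_ofReal, Complex.conj_I]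
      push_cast
      ring
    rw [map_mul, map_mul, map_inv₀, Complex.conj_ofReal, e3]
    ring
  simp_rw [e1]
  rw [Measure.integral_comp_div (fun η : ℝ => ((rt j)⁻¹ : ℂ) * (Complex.exp
    (((-2 * Real.pi * η * ((-k : ℤ) : ℝ) : ℝ) : ℂ) * Complex.I) •
      (g ((2:ℝ) ^ j * η) * conj (Psi η)))), abs_of_pos h2, integral_const_mul, Complex.real_smul]
  have h3 : (((2:ℝ) ^ j : ℝ) : ℂ) = (rt j : ℂ) ^ 2 := by
    rw [← rt_sq]
    push_cast
    ring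
  have h4 : (rt j : ℂ) ≠ 0 := by exact_mod_cast (rt_pos j).ne'
  rw [h3, ← mul_assoc]
  congr 1
  field_simp

end

end Pool.Agent.V11282.WV
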