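import Mathlib
import Pool.Agent.V11282.WV.Sch

/-!
Telescoping: Bessel and Parseval for compactly supported functions.
-/

set_option autoImplicit false

open Set Filter Topology MeasureTheory
open scoped FourierTransform ComplexConjugate

namespace Pool.Agent.V11282.WV

noncomputable section

/-- continuous functions vanishing outside `[-A, A]` -/
structure CC (A : ℝ) (g : ℝ → ℂ) : Prop where
  pos : 0 < A
  cont : Continuous g
  van : ∀ x, A ≤ |x| → g x = 0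

lemma CC.cs {A : ℝ} {g : ℝ → ℂ} (hg : CC A g) : HasCompactSupport g := by
  apply HasCompactSupport.intro (isCompact_Icc (a := -A) (b := A))
  intro x hx
  apply hg.van
  by_contra hcon
  push Not at hcon
  have := abs_lt.mp hcon
  exact hx ⟨this.1.le, this.2.le⟩

lemma rd_of_cs {F : ℝ → ℂ} (hF : Continuous F) (hs : HasCompactSupport F) : RD F := by
  refine ⟨hF, ?_⟩
  have hc : Continuous fun x => F x * ((1 + x ^ 2 : ℝ) : ℂ) := by fun_prop
  obtain ⟨C, hC⟩ := hc.bounded_above_of_compact_support (hs.mul_right)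
  refine ⟨C, fun x => ?_⟩
  have := hC x
  rw [norm_mul, Complex.norm_real, Real.norm_eq_abs, abs_of_pos (by positivity)] at this
  exact this

/-- dilation of `g` -/
def dil (g : ℝ → ℂ) (j : ℤ) (x : ℝ) : ℂ := g ((2:ℝ) ^ j * x)

lemma two_pos (j : ℤ) : (0:ℝ) < (2:ℝ) ^ j := zpow_pos (by norm_num) j

lemma CC.dil {A : ℝ} {g : ℝ → ℂ} (hg : CC A g) (j : ℤ) : CC (A / (2:ℝ) ^ j) (dil g j) := by
  have h2 := two_pos j
  refine ⟨div_pos hg.pos h2, hg.cont.comp (continuous_const.mul continuous_id), fun x hx => ?_⟩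
  apply hg.van
  rw [abs_mul, abs_of_pos h2]
  rw [div_le_iff₀ h2] at hx
  linarith

/-- the low-pass product -/
def FI (g : ℝ → ℂ) (j : ℤ) (x : ℝ) : ℂ := dil g j x * (Phi x : ℂ)

/-- the high-pass product -/
def FJ (g : ℝ → ℂ) (j : ℤ) (x : ℝ) : ℂ := dil g j x * conj (Psi x)

lemma FI_cc {A : ℝ} {g : ℝ → ℂ} (hg : CC A g) (j : ℤ) : CC (A / (2:ℝ) ^ j) (FI g j) := by
  have h := hg.dil j
  refine ⟨h.pos, h.cont.mul (Complex.continuous_ofReal.comp Phi_cont), fun x hx => ?_⟩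
  unfold FI
  rw [h.van x hx, zero_mul]

lemma FJ_cc {A : ℝ} {g : ℝ → ℂ} (hg : CC A g) (j : ℤ) : CC (A / (2:ℝ) ^ j) (FJ g j) := by
  have h := hg.dil j
  refine ⟨h.pos, h.cont.mul (Complex.continuous_conj.comp Psi_cont), fun x hx => ?_⟩
  unfold FJ
  rw [h.van x hx, zero_mul]

lemma FI_rd {A : ℝ} {g : ℝ → ℂ} (hg : CC A g) (j : ℤ) : RD (FI g j) :=
  rd_of_cs (FI_cc hg j).cont (FI_cc hg j).cs

lemma FJ_rd {A : ℝ} {g : ℝ → ℂ} (hg : CC A g) (j : ℤ) : RD (FJ g j) :=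
  rd_of_cs (FJ_cc hg j).cont (FJ_cc hg j).cs

lemma dil_half (g : ℝ → ℂ) (j : ℤ) (x : ℝ) : dil g (j + 1) (x / 2) = dil g j x := by
  unfold dil
  congr 1
  rw [zpow_add₀ (by norm_num), zpow_one]
  ring

lemma FI_half (g : ℝ → ℂ) (j : ℤ) : (fun x => FI g (j + 1) (x / 2) * mc (x / 2)) = FI g j := by
  funext x
  unfold FI mc
  rw [dil_half]
  have := Phi_two (x / 2)
  have e : 2 * (x / 2) = x := by ring
  rw [e] at this
  rw [this]
  push_cast
  ring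

lemma FJ_half (g : ℝ → ℂ) (j : ℤ) : (fun x => FI g (j + 1) (x / 2) * hc (x / 2)) = FJ g j := by
  funext x
  unfold FI FJ Psi
  rw [dil_half, map_mul, Complex.conj_conj, Complex.conj_ofReal]
  ring

/-- low-pass energy -/
def EI (g : ℝ → ℂ) (j : ℤ) : ℝ := (2:ℝ) ^ j * QQ (FI g j)

/-- high-pass energy -/
def EJ (g : ℝ → ℂ) (j : ℤ) : ℝ := (2:ℝ) ^ j * QQ (FJ g j)

lemma EI_step {A : ℝ} {g : ℝ → ℂ} (hg : CC A g) (j : ℤ) : EJ g j = EI g (j + 1) - EI g j := by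
  have hA : RD (fun x => FI g (j + 1) (x / 2) * mc (x / 2)) := by
    rw [FI_half]; exact FI_rd hg j
  have hB : RD (fun x => FI g (j + 1) (x / 2) * hc (x / 2)) := by
    rw [FJ_half]; exact FJ_rd hg j
  have h := QQ_split (FI_rd hg (j + 1)) hA hB
  rw [FI_half, FJ_half] at h
  unfold EI EJ
  rw [zpow_add₀ (by norm_num), zpow_one]
  have : (2:ℝ) ^ j * 2 * QQ (FI g (j + 1)) = (2:ℝ) ^ j * (2 * QQ (FI g (j + 1))) := by ring
  rw [this, ← h]
  ring

lemma EI_nonneg (g : ℝ → ℂ) (j : ℤ) : 0 ≤ EI g j :=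
  mul_nonneg (two_pos j).le (QQ_nonneg _)

lemma EI_large {A : ℝ} {g : ℝ → ℂ} (hg : CC A g) (j : ℤ) (hj : 4 * A ≤ (2:ℝ) ^ j) :
    EI g j = ∫ x, ‖g x‖ ^ 2 := by
  have h2 := two_pos j
  have hsup : ∀ x, 1 / 4 ≤ |x| → FI g j x = 0 := by
    intro x hx
    apply (FI_cc hg j).van
    rw [div_le_iff₀ h2]
    nlinarith
  unfold EI
  rw [QQ_small (fun x hx => hsup x (by linarith))]
  have e : ∀ x, ‖FI g j x‖ ^ 2 = (fun y => ‖g y‖ ^ 2) ((2:ℝ) ^ j * x) := by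
    intro x
    simp only
    rcases le_or_gt (1 / 4) |x| with h | h
    · rw [hsup x h]
      have : g ((2:ℝ) ^ j * x) = 0 := by
        apply hg.van
        rw [abs_mul, abs_of_pos h2]
        nlinarith
      rw [this]
    · unfold FI dil
      rw [Phi_one h.le]
      simp
  simp_rw [e]
  rw [Measure.integral_comp_mul_left (fun y => ‖g y‖ ^ 2), abs_of_pos (inv_pos.mpr h2), smul_eq_mul,
    ← mul_assoc, mul_inv_cancel₀ h2.ne', one_mul]

lemma EI_small {A : ℝ} {g : ℝ → ℂ} (hg : CC A g) : ∃ K : ℝ, ∀ j, EI g j ≤ (2:ℝ) ^ j * K := by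
  obtain ⟨B, hB⟩ := hg.cont.bounded_above_of_compact_support hg.cs
  have hB0 : 0 ≤ B := (norm_nonneg _).trans (hB 0)
  have hrd : RD (fun x => ((|Phi x| : ℝ) : ℂ)) := by
    apply rd_of_le (K := 1) _ _ (by norm_num)
    · exact Complex.continuous_ofReal.comp Phi_cont.abs
    · intro x
      rw [Complex.norm_real, Real.norm_eq_abs, abs_abs, one_mul]
  obtain ⟨K, hK⟩ := (isCompact_Icc (a := (0:ℝ)) (b := 1)).exists_bound_of_continuousOn
    hrd.per_cont.continuousOn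
  have hK0 : 0 ≤ K := (norm_nonneg _).trans (hK 0 (by constructor <;> norm_num))
  refine ⟨(B * K) ^ 2, fun j => ?_⟩
  unfold EI
  have h2 := two_pos j
  apply mul_le_mul_of_nonneg_left _ h2.le
  have hb : ∀ x ∈ Icc (0:ℝ) 1, ‖per (FI g j) x‖ ≤ B * K := by
    intro x hx
    have hs : Summable fun n : ℤ => |Phi (x + n)| := by
      have := (hrd.summable x).norm
      simpa using this
    have h3 : ‖per (FI g j) x‖ ≤ B * ∑' n : ℤ, |Phi (x + n)| := by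
      unfold per
      apply tsum_of_norm_bounded (hs.hasSum.mul_left B)
      intro n
      unfold FI dil
      rw [norm_mul, Complex.norm_real, Real.norm_eq_abs]
      have := hB ((2:ℝ) ^ j * (x + n))
      gcongr
    have h4 : ∑' n : ℤ, |Phi (x + n)| ≤ K := by
      have h5 := hK x hx
      unfold per at h5
      rw [← Complex.ofReal_tsum, Complex.norm_real, Real.norm_eq_abs] at h5
      exact (le_abs_self _).trans h5
    calc ‖per (FI g j) x‖ ≤ B * ∑' n : ℤ, |Phi (x + n)| := h3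
      _ ≤ B * K := by gcongr
  unfold QQ
  calc ∫ x in (0:ℝ)..1, ‖per (FI g j) x‖ ^ 2 ≤ ∫ x in (0:ℝ)..1, (B * K) ^ 2 := by
        apply intervalIntegral.integral_mono_on (by norm_num)
        · have hc : Continuous fun x => ‖per (FI g j) x‖ ^ 2 := ((FI_rd hg j).per_cont.norm).pow 2
          exact hc.intervalIntegrable _ _
        · exact intervalIntegrable_const
        · intro x hx
          exact pow_le_pow_left₀ (norm_nonneg _) (hb x hx) 2
    _ = (B * K) ^ 2 := by simp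

lemma tele {A : ℝ} {g : ℝ → ℂ} (hg : CC A g) (a : ℤ) (n : ℕ) :
    ∑ j ∈ Finset.Ico a (a + n), EJ g j = EI g (a + n) - EI g a := by
  induction n with
  | zero => simp
  | succ n ih =>
    have e : Finset.Ico a (a + ((n + 1 : ℕ) : ℤ)) = insert (a + n) (Finset.Ico a (a + n)) := by
      ext x
      simp only [Finset.mem_Ico, Finset.mem_insert]
      push_cast
      omega
    rw [e, Finset.sum_insert (by simp), ih, EI_step hg]
    push_cast
    rw [add_assoc]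
    ring

lemma cf_hasSum {A : ℝ} {g : ℝ → ℂ} (hg : CC A g) (j : ℤ) :
    HasSum (fun k : ℤ => ‖cf g j k‖ ^ 2) (EJ g j) := by
  have h := (parseval (FJ_rd hg j)).mul_left ((2:ℝ) ^ j)
  have h2 := (Equiv.neg ℤ).hasSum_iff.mpr h
  have e : (fun k : ℤ => ‖cf g j k‖ ^ 2)
      = (fun i : ℤ => (2:ℝ) ^ j * ‖𝓕 (FJ g j) (i : ℝ)‖ ^ 2) ∘ ⇑(Equiv.neg ℤ) := by
    funext k
    simp only [Function.comp_apply, Equiv.neg_apply]
    rw [cf_eq, norm_mul, mul_pow, Complex.norm_real, Real.norm_eq_abs, sq_abs, rt_sq]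
    rfl
  rw [e]
  exact h2

lemma EJ_nonneg (g : ℝ → ℂ) (j : ℤ) : 0 ≤ EJ g j :=
  mul_nonneg (two_pos j).le (QQ_nonneg _)

lemma large_pow (A : ℝ) : ∃ M : ℕ, ∀ j : ℤ, (M : ℤ) ≤ j → 4 * A ≤ (2:ℝ) ^ j := by
  obtain ⟨M, hM⟩ := pow_unbounded_of_one_lt (4 * A) (by norm_num : (1:ℝ) < 2)
  refine ⟨M, fun j hj => ?_⟩
  calc 4 * A ≤ (2:ℝ) ^ M := hM.le
    _ = (2:ℝ) ^ (M : ℤ) := (zpow_natCast _ _).symm
    _ ≤ (2:ℝ) ^ j := zpow_le_zpow_right₀ (by norm_num) hj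

/-- Bessel -/
theorem bessel {A : ℝ} {g : ℝ → ℂ} (hg : CC A g) (s : Finset (ℤ × ℤ)) :
    ∑ p ∈ s, ‖cf g p.1 p.2‖ ^ 2 ≤ ∫ x, ‖g x‖ ^ 2 := by
  classical
  obtain ⟨M0, hM0⟩ := large_pow A
  obtain ⟨M1, hM1⟩ : ∃ M1 : ℕ, ∀ p ∈ s, |p.1| ≤ (M1 : ℤ) := by
    refine ⟨s.sup (fun p => p.1.natAbs), fun p hp => ?_⟩
    have : p.1.natAbs ≤ s.sup (fun p => p.1.natAbs) := Finset.le_sup (f := fun p : ℤ × ℤ =>
      p.1.natAbs) hp
    rw [Int.abs_eq_natAbs]
    exact_mod_cast this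
  set M := M0 + M1 + 1 with hM
  have hsub : s ⊆ Finset.Ico (-(M : ℤ)) (-(M : ℤ) + ((2 * M : ℕ) : ℤ)) ×ˢ s.image Prod.snd := by
    intro p hp
    rw [Finset.mem_product]
    refine ⟨?_, Finset.mem_image_of_mem _ hp⟩
    have := abs_le.mp (hM1 p hp)
    rw [Finset.mem_Ico]
    push_cast
    constructor <;> omega
  calc ∑ p ∈ s, ‖cf g p.1 p.2‖ ^ 2
      ≤ ∑ p ∈ Finset.Ico (-(M : ℤ)) (-(M : ℤ) + ((2 * M : ℕ) : ℤ)) ×ˢ s.image Prod.snd,
        ‖cf g p.1 p.2‖ ^ 2 :=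
        Finset.sum_le_sum_of_subset_of_nonneg hsub (fun _ _ _ => by positivity)
    _ = ∑ j ∈ Finset.Ico (-(M : ℤ)) (-(M : ℤ) + ((2 * M : ℕ) : ℤ)), ∑ k ∈ s.image Prod.snd,
        ‖cf g j k‖ ^ 2 := Finset.sum_product _ _ _
    _ ≤ ∑ j ∈ Finset.Ico (-(M : ℤ)) (-(M : ℤ) + ((2 * M : ℕ) : ℤ)), EJ g j := by
        apply Finset.sum_le_sum
        intro j _
        exact sum_le_hasSum _ (fun _ _ => by positivity) (cf_hasSum hg j)
    _ = EI g (-(M : ℤ) + ((2 * M : ℕ) : ℤ)) - EI g (-(M : ℤ)) := tele hg _ _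
    _ ≤ EI g (-(M : ℤ) + ((2 * M : ℕ) : ℤ)) := by
        have := EI_nonneg g (-(M : ℤ))
        linarith
    _ = ∫ x, ‖g x‖ ^ 2 := by
        apply EI_large hg
        apply hM0
        push_cast
        omega

/-- Parseval, lower bound -/
theorem pars_lower {A : ℝ} {g : ℝ → ℂ} (hg : CC A g) (ε : ℝ) (hε : 0 < ε) :
    ∃ s : Finset (ℤ × ℤ), (∫ x, ‖g x‖ ^ 2) - ε ≤ ∑ p ∈ s, ‖cf g p.1 p.2‖ ^ 2 := by
  classical
  obtain ⟨M0, hM0⟩ := large_pow A
  obtain ⟨K, hK⟩ := EI_small hg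
  obtain ⟨M1, hM1⟩ := exists_pow_lt_of_lt_one (show 0 < ε / (2 * (|K| + 1)) by positivity)
    (by norm_num : (1 / 2 : ℝ) < 1)
  set M := M0 + M1 + 1 with hM
  have hlow : EI g (-(M : ℤ)) ≤ ε / 2 := by
    refine (hK _).trans ?_
    have h1 : (2:ℝ) ^ (-(M : ℤ)) ≤ (1 / 2) ^ M1 := by
      rw [zpow_neg, zpow_natCast, one_div, inv_pow]
      apply inv_anti₀ (by positivity)
      exact pow_le_pow_right₀ (by norm_num) (by omega)
    have h2 : K ≤ |K| + 1 := by linarith [le_abs_self K]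
    have h3 : 0 < |K| + 1 := by positivity
    calc (2:ℝ) ^ (-(M : ℤ)) * K ≤ (2:ℝ) ^ (-(M : ℤ)) * (|K| + 1) := by
          have := two_pos (-(M : ℤ))
          gcongr
      _ ≤ (1 / 2) ^ M1 * (|K| + 1) := by gcongr
      _ ≤ ε / (2 * (|K| + 1)) * (|K| + 1) := by gcongr
      _ = ε / 2 := by field_simp
  set S := Finset.Ico (-(M : ℤ)) (-(M : ℤ) + ((2 * M : ℕ) : ℤ)) with hS
  have hsum : ∑ j ∈ S, EJ g j ≥ (∫ x, ‖g x‖ ^ 2) - ε / 2 := by
    rw [hS, tele hg, EI_large hg (-(M : ℤ) + ((2 * M : ℕ) : ℤ)) (by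
      apply hM0
      push_cast
      omega)]
    linarith
  have hHS : HasSum (fun k : ℤ => ∑ j ∈ S, ‖cf g j k‖ ^ 2) (∑ j ∈ S, EJ g j) :=
    hasSum_sum fun j _ => cf_hasSum hg j
  have hev := hHS.eventually (lt_mem_nhds (show ∑ j ∈ S, EJ g j - ε / 2 < ∑ j ∈ S, EJ g j by
    linarith))
  obtain ⟨t, ht⟩ := hev.exists
  refine ⟨S ×ˢ t, ?_⟩
  rw [Finset.sum_product_right]
  linarith

end

end Pool.Agent.V11282.WV
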