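import Mathlib
import Pool.Agent.V11282.WV.Tel

/-!
From Parseval on a dense set to an orthonormal basis.
-/

set_option autoImplicit false

open Set Filter Topology MeasureTheory
open scoped FourierTransform ComplexConjugate SchwartzMap InnerProductSpace

namespace Pool.Agent.V11282.WV

noncomputable section

lemma bessel_all {H : Type*} [NormedAddCommGroup H] [InnerProductSpace ℂ H] {ι : Type*}
    (u : ι → H) (D : Set H) (hD : Dense D) (s : Finset ι)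
    (hB : ∀ g ∈ D, ∑ i ∈ s, ‖(inner ℂ (u i) g : ℂ)‖ ^ 2 ≤ ‖g‖ ^ 2) (f : H) :
    ∑ i ∈ s, ‖(inner ℂ (u i) f : ℂ)‖ ^ 2 ≤ ‖f‖ ^ 2 := by
  have hcl : IsClosed {f : H | ∑ i ∈ s, ‖(inner ℂ (u i) f : ℂ)‖ ^ 2 ≤ ‖f‖ ^ 2} := by
    apply isClosed_le
    · apply continuous_finset_sum
      intro i _
      exact (continuous_const.inner continuous_id).norm.pow 2
    · exact continuous_norm.pow 2
  have h1 : D ⊆ {f : H | ∑ i ∈ s, ‖(inner ℂ (u i) f : ℂ)‖ ^ 2 ≤ ‖f‖ ^ 2} := hB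
  have h2 := closure_minimal h1 hcl
  rw [hD.closure_eq] at h2
  exact h2 (mem_univ f)

theorem onb_of_parseval {H : Type*} [NormedAddCommGroup H] [InnerProductSpace ℂ H] {ι : Type*}
    (u : ι → H) (D : Set H) (hD : Dense D) (h1 : ∀ i, ‖u i‖ = 1)
    (hB : ∀ g ∈ D, ∀ s : Finset ι, ∑ i ∈ s, ‖(inner ℂ (u i) g : ℂ)‖ ^ 2 ≤ ‖g‖ ^ 2)
    (hP : ∀ g ∈ D, ∀ ε > 0, ∃ s : Finset ι,
      ‖g‖ ^ 2 - ε ≤ ∑ i ∈ s, ‖(inner ℂ (u i) g : ℂ)‖ ^ 2) :
    (∀ i j, i ≠ j → (inner ℂ (u i) (u j) : ℂ) = 0) ∧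
    ∀ f : H, (∀ i, (inner ℂ (u i) f : ℂ) = 0) → f = 0 := by
  classical
  have hBA : ∀ (f : H) (s : Finset ι), ∑ i ∈ s, ‖(inner ℂ (u i) f : ℂ)‖ ^ 2 ≤ ‖f‖ ^ 2 :=
    fun f s => bessel_all u D hD s (fun g hg => hB g hg s) f
  constructor
  · intro i j hij
    have h2 := hBA (u j) {i, j}
    rw [Finset.sum_pair hij, h1 j, inner_self_eq_norm_sq_to_K, h1 j] at h2
    have h3 : ‖(((1:ℝ) : ℂ)) ^ 2‖ ^ 2 = 1 := by simp
    have h4 : ‖(inner ℂ (u i) (u j) : ℂ)‖ ^ 2 ≤ 0 := by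
      have h5 : ‖((RCLike.ofReal (1:ℝ) : ℂ)) ^ 2‖ ^ 2 = 1 := by simp
      rw [h5] at h2
      linarith
    have h5 : ‖(inner ℂ (u i) (u j) : ℂ)‖ ^ 2 = 0 := le_antisymm h4 (by positivity)
    have h6 : ‖(inner ℂ (u i) (u j) : ℂ)‖ = 0 := by
      exact pow_eq_zero_iff (two_ne_zero) |>.mp h5
    exact norm_eq_zero.mp h6
  · intro f hf
    by_contra hne
    have hf0 : 0 < ‖f‖ := norm_pos_iff.mpr hne
    obtain ⟨g, hgD, hg⟩ := Metric.dense_iff.mp hD f (‖f‖ / 4) (by positivity)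
    have hgf : ‖g - f‖ < ‖f‖ / 4 := by
      have := Metric.mem_ball.mp hgD
      rwa [dist_eq_norm] at this
    obtain ⟨s, hs⟩ := hP g hg (‖f‖ ^ 2 / 4) (by positivity)
    have h2 : ∑ i ∈ s, ‖(inner ℂ (u i) g : ℂ)‖ ^ 2 ≤ ‖g - f‖ ^ 2 := by
      have h3 := hBA (g - f) s
      have h4 : ∑ i ∈ s, ‖(inner ℂ (u i) (g - f) : ℂ)‖ ^ 2
          = ∑ i ∈ s, ‖(inner ℂ (u i) g : ℂ)‖ ^ 2 := by
        apply Finset.sum_congr rfl
        intro i _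
        rw [inner_sub_right, hf i, sub_zero]
      rwa [h4] at h3
    have h5 : ‖f‖ ≤ ‖g‖ + ‖g - f‖ := by
      have : f = g - (g - f) := by abel
      nth_rewrite 1 [this]
      exact norm_sub_le _ _
    have h6 : 3 / 4 * ‖f‖ < ‖g‖ := by linarith
    have h7 : ‖g - f‖ ^ 2 ≤ (‖f‖ / 4) ^ 2 := pow_le_pow_left₀ (norm_nonneg _) hgf.le 2
    have h8 : (3 / 4 * ‖f‖) ^ 2 < ‖g‖ ^ 2 := pow_lt_pow_left₀ h6 (by positivity) (by norm_num)
    nlinarith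

/-- the elements of `L²` on the Fourier side -/
def uu (p : ℤ × ℤ) : Lp ℂ 2 (volume : Measure ℝ) := (whS p.1 p.2).toLp 2

/-- the elements of `L²` -/
def vv (p : ℤ × ℤ) : Lp ℂ 2 (volume : Measure ℝ) := (wvS p.1 p.2).toLp 2

lemma vv_fourier (p : ℤ × ℤ) : 𝓕 (vv p) = uu p := by
  unfold vv uu
  rw [SchwartzMap.toLp_fourier_eq, wvS_fourier]

lemma uu_ae (p : ℤ × ℤ) : (uu p : ℝ → ℂ) =ᵐ[volume] wh p.1 p.2 := by
  have h := SchwartzMap.coeFn_toLp (whS p.1 p.2) 2 (volume : Measure ℝ)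
  have e : (whS p.1 p.2 : ℝ → ℂ) = wh p.1 p.2 := by
    funext ξ
    exact whS_apply _ _ ξ
  rw [e] at h
  exact h

lemma vv_ae (p : ℤ × ℤ) : (vv p : ℝ → ℂ) =ᵐ[volume] wv psi p.1 p.2 := by
  have h := SchwartzMap.coeFn_toLp (wvS p.1 p.2) 2 (volume : Measure ℝ)
  have e : (wvS p.1 p.2 : ℝ → ℂ) = wv psi p.1 p.2 := by
    funext ξ
    exact wvS_apply _ _ ξ
  rw [e] at h
  exact h

lemma inner_uu (p : ℤ × ℤ) (G : Lp ℂ 2 (volume : Measure ℝ)) (g : ℝ → ℂ)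
    (hG : (G : ℝ → ℂ) =ᵐ[volume] g) : (inner ℂ (uu p) G : ℂ) = cf g p.1 p.2 := by
  rw [L2.inner_def]
  unfold cf
  apply integral_congr_ae
  filter_upwards [uu_ae p, hG] with x h1 h2
  rw [h1, h2, RCLike.inner_apply, mul_comm]

lemma norm_sq_L2 (G : Lp ℂ 2 (volume : Measure ℝ)) (g : ℝ → ℂ)
    (hG : (G : ℝ → ℂ) =ᵐ[volume] g) : ‖G‖ ^ 2 = ∫ x, ‖g x‖ ^ 2 := by
  have h : (inner ℂ G G : ℂ) = ((∫ x, ‖g x‖ ^ 2 : ℝ) : ℂ) := by
    rw [L2.inner_def, ← integral_complex_ofReal]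
    apply integral_congr_ae
    filter_upwards [hG] with x h1
    rw [h1, inner_self_eq_norm_sq_to_K]
    simp
  rw [inner_self_eq_norm_sq_to_K] at h
  have h' : ((‖G‖ ^ 2 : ℝ) : ℂ) = ((∫ x, ‖g x‖ ^ 2 : ℝ) : ℂ) := by
    rw [← h]
    push_cast
    rfl
  exact Complex.ofReal_injective h'

lemma uu_norm (p : ℤ × ℤ) : ‖uu p‖ = 1 := by
  have h1 := norm_sq_L2 (uu p) _ (uu_ae p)
  have h2 : ∫ ξ, ‖wh p.1 p.2 ξ‖ ^ 2 = 1 := by
    have hp := two_pos p.1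
    have e : ∀ ξ, ‖wh p.1 p.2 ξ‖ ^ 2 = (fun y => ((2:ℝ) ^ p.1)⁻¹ * (m0 (y / 2 + 1 / 2)
        * Phi (y / 2)) ^ 2) (ξ / (2:ℝ) ^ p.1) := by
      intro ξ
      simp only
      unfold wh Psi
      rw [conj_hc, norm_mul, norm_mul, norm_mul, norm_mul, ex_norm, ex_norm, Complex.norm_real,
        Complex.norm_real, norm_inv, Complex.norm_real, ← rt_sq]
      have e2 : ((rt p.1 ^ 2)⁻¹ * ξ / 2) = ξ / rt p.1 ^ 2 / 2 := by
        rw [div_eq_inv_mul ξ]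
      rw [e2]
      simp only [one_mul, Real.norm_eq_abs, mul_pow, inv_pow, sq_abs]
    simp_rw [e]
    rw [Measure.integral_comp_div (fun y => ((2:ℝ) ^ p.1)⁻¹ * (m0 (y / 2 + 1 / 2)
        * Phi (y / 2)) ^ 2), abs_of_pos hp, integral_const_mul, Psi_norm, smul_eq_mul, mul_one,
      mul_inv_cancel₀ hp.ne']
  rw [h2] at h1
  have h3 := norm_nonneg (uu p)
  nlinarith

/-- the dense set -/
def DD : Set (Lp ℂ 2 (volume : Measure ℝ)) :=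
  {G | ∃ (A : ℝ) (g : ℝ → ℂ), CC A g ∧ (G : ℝ → ℂ) =ᵐ[volume] g}

lemma DD_dense : Dense DD := by
  rw [Metric.dense_iff]
  intro f r hr
  obtain ⟨g, hgs, hgn, hgc, hgm⟩ := (Lp.memLp f).exists_hasCompactSupport_eLpNorm_sub_le
    (by norm_num) (ε := ENNReal.ofReal (r / 2)) (by simpa using hr)
  refine ⟨hgm.toLp g, ?_, ?_⟩
  · rw [Metric.mem_ball, dist_comm, dist_eq_norm]
    have h1 : f - hgm.toLp g = ((Lp.memLp f).sub hgm).toLp (⇑f - g) := by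
      rw [MemLp.toLp_sub (Lp.memLp f) hgm, Lp.toLp_coeFn]
    rw [h1, Lp.norm_toLp]
    have h2 := ENNReal.toReal_le_of_le_ofReal (by positivity) hgn
    linarith
  · obtain ⟨A, hA⟩ := hgs.isCompact.isBounded.subset_closedBall 0
    refine ⟨max A 0 + 1, g, ⟨by positivity, hgc, ?_⟩, hgm.coeFn_toLp⟩
    intro x hx
    by_contra hne
    have h3 : x ∈ tsupport g := subset_tsupport g hne
    have h4 := hA h3
    rw [mem_closedBall_zero_iff, Real.norm_eq_abs] at h4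
    have := le_max_left A 0
    linarith

theorem uu_onb : (∀ i j, i ≠ j → (inner ℂ (uu i) (uu j) : ℂ) = 0) ∧
    ∀ f : Lp ℂ 2 (volume : Measure ℝ), (∀ i, (inner ℂ (uu i) f : ℂ) = 0) → f = 0 := by
  apply onb_of_parseval uu DD DD_dense uu_norm
  · rintro G ⟨A, g, hg, hG⟩ s
    simp_rw [inner_uu _ G g hG]
    rw [norm_sq_L2 G g hG]
    exact bessel hg s
  · rintro G ⟨A, g, hg, hG⟩ ε hε
    simp_rw [inner_uu _ G g hG]
    rw [norm_sq_L2 G g hG]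
    exact pars_lower hg ε hε

theorem vv_onb : (∀ i j, (inner ℂ (vv i) (vv j) : ℂ) = if i = j then 1 else 0) ∧
    ∀ f : Lp ℂ 2 (volume : Measure ℝ), (∀ i, (inner ℂ (vv i) f : ℂ) = 0) → f = 0 := by
  obtain ⟨h1, h2⟩ := uu_onb
  constructor
  · intro i j
    rw [← Lp.inner_fourier_eq (vv i) (vv j), vv_fourier, vv_fourier]
    split_ifs with h
    · rw [h, inner_self_eq_norm_sq_to_K, uu_norm]
      simp
    · exact h1 i j h
  · intro f hf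
    have h3 : 𝓕 f = 0 := by
      apply h2
      intro i
      rw [← vv_fourier, Lp.inner_fourier_eq]
      exact hf i
    have h4 := Lp.norm_fourier_eq f
    rw [h3, norm_zero] at h4
    exact norm_eq_zero.mp h4.symm

end

end Pool.Agent.V11282.WV
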