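import Mathlib
import Pool.Agent.V11282.WV.Hil

/-!
The wavelet is real, its Fourier transform is not compactly supported.
-/

set_option autoImplicit false

open Set Filter Topology MeasureTheory
open scoped FourierTransform ComplexConjugate SchwartzMap InnerProductSpace

namespace Pool.Agent.V11282.WV

noncomputable section

lemma Phi_ne_aux (m : ℕ) : ∀ t : ℝ, 0 < t → t < 1 / 24 →
    Phi (4 ^ m * (2 / 3) + t) ≠ 0 ∧ Phi (4 ^ m * (4 / 3) + t) ≠ 0 := by
  induction m with
  | zero =>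
    have h1 : ∀ t : ℝ, 0 < t → t < 1 / 24 → Phi (4 ^ 0 * (2 / 3) + t) ≠ 0 := by
      intro t h0 h1
      rw [pow_zero, one_mul, Phi_half]
      apply mul_ne_zero
      · apply m0_ne
        · rw [abs_of_pos (by linarith)]; linarith
        · rw [abs_of_pos (by linarith)]; intro h; linarith
      · rw [Phi_half]
        apply mul_ne_zero
        · apply m0_ne
          · rw [abs_of_pos (by linarith)]; linarith
          · rw [abs_of_pos (by linarith)]; intro h; linarith
        · rw [Phi_one (by rw [abs_of_pos (by linarith)]; linarith)]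
          exact one_ne_zero
    intro t h0 ht
    refine ⟨h1 t h0 ht, ?_⟩
    rw [Phi_half]
    apply mul_ne_zero
    · have e : 1 / 2 * ((4:ℝ) ^ 0 * (4 / 3) + t) = (-(1 / 3) + t / 2) + ((1 : ℤ) : ℝ) := by
        push_cast; ring
      rw [e, m0_per]
      apply m0_ne
      · rw [abs_of_neg (by linarith)]; linarith
      · rw [abs_of_neg (by linarith)]; intro h; linarith
    · have e : 1 / 2 * ((4:ℝ) ^ 0 * (4 / 3) + t) = 4 ^ 0 * (2 / 3) + t / 2 := by ring
      rw [e]
      exact h1 (t / 2) (by linarith) (by linarith)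
  | succ m ih =>
    obtain ⟨K, hK⟩ := four_third m
    have h1 : ∀ t : ℝ, 0 < t → t < 1 / 24 → Phi (4 ^ (m + 1) * (2 / 3) + t) ≠ 0 := by
      intro t h0 h1
      have e : 1 / 2 * ((4:ℝ) ^ (m + 1) * (2 / 3) + t) = 4 ^ m * (4 / 3) + t / 2 := by
        rw [pow_succ]; ring
      rw [Phi_half, e]
      apply mul_ne_zero
      · have e2 : (4:ℝ) ^ m * (4 / 3) + t / 2 = (1 / 3 + t / 2) + ((1 + 2 * K : ℤ) : ℝ) := by
          push_cast; linarith
        rw [e2, m0_per]
        apply m0_ne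
        · rw [abs_of_pos (by linarith)]; linarith
        · rw [abs_of_pos (by linarith)]; intro h; linarith
      · exact (ih (t / 2) (by linarith) (by linarith)).2
    intro t h0 ht
    refine ⟨h1 t h0 ht, ?_⟩
    have e : 1 / 2 * ((4:ℝ) ^ (m + 1) * (4 / 3) + t) = 4 ^ (m + 1) * (2 / 3) + t / 2 := by ring
    rw [Phi_half, e]
    apply mul_ne_zero
    · have e2 : (4:ℝ) ^ (m + 1) * (2 / 3) + t / 2
          = (-(1 / 3) + t / 2) + ((3 + 4 * K : ℤ) : ℝ) := by
        rw [pow_succ]; push_cast; linarith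
      rw [e2, m0_per]
      apply m0_ne
      · rw [abs_of_neg (by linarith)]; linarith
      · rw [abs_of_neg (by linarith)]; intro h; linarith
    · exact h1 (t / 2) (by linarith) (by linarith)

lemma Psi_ne (m : ℕ) : Psi (2 * (4 ^ m * (2 / 3) + 1 / 48)) ≠ 0 := by
  unfold Psi
  have e : 2 * ((4:ℝ) ^ m * (2 / 3) + 1 / 48) / 2 = 4 ^ m * (2 / 3) + 1 / 48 := by ring
  rw [e, conj_hc]
  obtain ⟨K, hK⟩ := four_third m
  apply mul_ne_zero
  · apply mul_ne_zero
    · intro h
      have := ex_norm (2 * Real.pi * (4 ^ m * (2 / 3) + 1 / 48))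
      rw [h, norm_zero] at this
      norm_num at this
    · have e2 : (4:ℝ) ^ m * (2 / 3) + 1 / 48 + 1 / 2 = (1 / 6 + 1 / 48) + ((1 + K : ℤ) : ℝ) := by
        push_cast; linarith
      rw [e2, m0_per]
      have : m0 (1 / 6 + 1 / 48) ≠ 0 := by
        apply m0_ne
        · rw [abs_of_pos (by norm_num)]; norm_num
        · rw [abs_of_pos (by norm_num)]; norm_num
      exact_mod_cast this
  · have := (Phi_ne_aux m (1 / 48) (by norm_num) (by norm_num)).1
    exact_mod_cast this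

lemma Psi_not_cs : ¬ HasCompactSupport Psi := by
  intro h
  obtain ⟨R, hR⟩ := h.isCompact.isBounded.subset_closedBall 0
  obtain ⟨m, hm⟩ := pow_unbounded_of_one_lt |R| (by norm_num : (1:ℝ) < 4)
  have h1 : 2 * ((4:ℝ) ^ m * (2 / 3) + 1 / 48) ∈ tsupport Psi := subset_tsupport Psi (Psi_ne m)
  have h2 := hR h1
  rw [mem_closedBall_zero_iff, Real.norm_eq_abs] at h2
  have h3 := le_abs_self (2 * ((4:ℝ) ^ m * (2 / 3) + 1 / 48))
  have h4 := le_abs_self R
  have h5 : (0:ℝ) < 4 ^ m := by positivity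
  linarith

lemma psi_fourier : 𝓕 (psi : ℝ → ℂ) = Psi := by
  have h1 : 𝓕 psi = PsiS := by
    unfold psi
    simp
  have h2 : (𝓕 psi : 𝓢(ℝ, ℂ)) = (𝓕 (psi : ℝ → ℂ)) := SchwartzMap.fourier_coe psi
  rw [← h2, h1]
  funext ξ
  exact PsiS_apply ξ

lemma Psi_conj (ξ : ℝ) : conj (Psi (-ξ)) = Psi ξ := by
  unfold Psi
  rw [map_mul, Complex.conj_ofReal, conj_hc, conj_hc, map_mul, Complex.conj_ofReal]
  have e1 : m0 (-ξ / 2 + 1 / 2) = m0 (ξ / 2 + 1 / 2) := by
    have h1 := m0_even (ξ / 2 - 1 / 2)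
    have h2 := m0_per1 (ξ / 2 - 1 / 2)
    have h3 : -(ξ / 2 - 1 / 2) = -ξ / 2 + 1 / 2 := by ring
    have h4 : ξ / 2 - 1 / 2 + 1 = ξ / 2 + 1 / 2 := by ring
    rw [h3] at h1
    rw [h4] at h2
    rw [h1, h2]
  have e2 : Phi (-ξ / 2) = Phi (ξ / 2) := by
    have : -ξ / 2 = -(ξ / 2) := by ring
    rw [this, Phi_even]
  have e3 : conj (ex (2 * Real.pi * (-ξ / 2))) = ex (2 * Real.pi * (ξ / 2)) := by
    unfold ex
    rw [← Complex.exp_conj, map_mul, Complex.conj_ofReal, Complex.conj_I]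
    congr 1
    push_cast
    ring
  rw [e1, e2, e3]

lemma psi_real (x : ℝ) : (psi x).im = 0 := by
  have h : conj (psi x) = psi x := by
    rw [psi_apply, ← integral_conj]
    have e : ∀ ξ : ℝ, conj (ex (2 * Real.pi * ξ * x) * Psi ξ)
        = (fun η : ℝ => ex (2 * Real.pi * η * x) * Psi η) (-ξ) := by
      intro ξ
      simp only
      rw [map_mul]
      have h1 := Psi_conj (-ξ)
      rw [neg_neg] at h1
      rw [h1]
      congr 1
      unfold ex
      rw [← Complex.exp_conj, map_mul, Complex.conj_ofReal, Complex.conj_I]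
      congr 1
      push_cast
      ring
    simp_rw [e]
    exact integral_neg_eq_self (fun η : ℝ => ex (2 * Real.pi * η * x) * Psi η) volume
  exact Complex.conj_eq_iff_im.mp h

theorem psi_orth (j k j' k' : ℤ) : ∫ x, wv psi j k x * conj (wv psi j' k' x)
    = if j = j' ∧ k = k' then 1 else 0 := by
  have h := vv_onb.1 (j', k') (j, k)
  rw [L2.inner_def] at h
  have e : ∫ x, wv psi j k x * conj (wv psi j' k' x)
      = ∫ x, inner ℂ ((vv (j', k') : ℝ → ℂ) x) ((vv (j, k) : ℝ → ℂ) x) := by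
    apply integral_congr_ae
    filter_upwards [vv_ae (j', k'), vv_ae (j, k)] with x h1 h2
    rw [h1, h2, RCLike.inner_apply]
  rw [e, h]
  simp only [Prod.mk.injEq]
  by_cases h1 : j = j' ∧ k = k'
  · rw [if_pos h1, if_pos ⟨h1.1.symm, h1.2.symm⟩]
  · rw [if_neg h1, if_neg (fun h2 => h1 ⟨h2.1.symm, h2.2.symm⟩)]

theorem psi_total (f : ℝ → ℂ) (hf : MemLp f 2) (h : ∀ j k : ℤ, ∫ x, f x * conj (wv psi j k x) = 0) :
    f =ᵐ[volume] 0 := by
  have h1 := vv_onb.2 (hf.toLp f) (by
    rintro ⟨j, k⟩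
    rw [L2.inner_def, ← h j k]
    apply integral_congr_ae
    filter_upwards [vv_ae (j, k), hf.coeFn_toLp] with x h1 h2
    rw [h1, h2, RCLike.inner_apply])
  have h2 := hf.coeFn_toLp
  rw [h1] at h2
  exact h2.symm.trans (Lp.coeFn_zero _ _ _)

end

end Pool.Agent.V11282.WV
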